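import Pool.Agent.MBG.Defs

/-! Monotonicity of the auxiliary game and a free move of Dominator (helper94). -/

set_option autoImplicit false

namespace Pool.Agent.MBG

section
variable {V : Type*} [DecidableEq V] (G : SimpleGraph V)

theorem BaseAux.dm_mono {B D D' : Finset V} (h : Dm G B D) (hD : D ⊆ D') : Dm G B D' := by
  intro v hv
  obtain ⟨u, hu, h1⟩ := h v hv
  exact ⟨u, hD hu, h1⟩

theorem BaseAux.dm_W {B : Finset V} {k : ℕ} {D S : Finset V} (h : Dm G B D) : W G B k D S := by
  cases k with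
  | zero => exact h
  | succ k => exact Or.inl h

/-- module Base -/
theorem W.mono {B : Finset V} {k : ℕ} {D S D' S' : Finset V} (h : W G B k D S) (hD : D ⊆ D')
    (hS : S' ∩ B ⊆ S) : W G B k D' S' := by
  induction k generalizing D S D' S' with
  | zero => exact BaseAux.dm_mono G h hD
  | succ k ih =>
    rcases h with h | h
    · exact Or.inl (BaseAux.dm_mono G h hD)
    · refine Or.inr fun s hs hsD => ?_
      obtain ⟨d, hd, hdS, hW⟩ := h s hs fun h1 => hsD (hD h1)
      rw [Finset.mem_insert, not_or] at hdS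
      refine ⟨d, hd, ?_, ih hW (Finset.insert_subset_insert d hD) ?_⟩
      · rw [Finset.mem_insert, not_or]
        exact ⟨hdS.1, fun h1 => hdS.2 (hS (Finset.mem_inter.2 ⟨h1, hd⟩))⟩
      · intro x hx
        rw [Finset.mem_inter, Finset.mem_insert] at hx
        rcases hx.1 with h1 | h1
        · exact Finset.mem_insert.2 (Or.inl h1)
        · exact Finset.mem_insert.2 (Or.inr (hS (Finset.mem_inter.2 ⟨h1, hx.2⟩)))

/-- module Base -/
theorem W.succ {B : Finset V} {k l : ℕ} {D S : Finset V} (h : W G B k D S) (hkl : k ≤ l) :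
    W G B l D S := by
  induction k generalizing l D S with
  | zero => exact BaseAux.dm_W G h
  | succ k ih =>
    obtain ⟨l, rfl⟩ : ∃ l', l = l' + 1 := ⟨l - 1, by omega⟩
    rcases h with h | h
    · exact Or.inl h
    · refine Or.inr fun s hs hsD => ?_
      obtain ⟨d, hd, hdS, hW⟩ := h s hs hsD
      exact ⟨d, hd, hdS, ih hW (by omega)⟩

theorem W.free_strong {B : Finset V} {k : ℕ} {D S : Finset V} (h : W G B (k + 1) D S) :
    Dm G B D ∨ ∃ d ∈ B, d ∉ S ∧ W G B k (insert d D) S := by
  by_cases hdm : Dm G B D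
  · exact Or.inl hdm
  · refine Or.inr ?_
    by_cases hex : ∃ s ∈ B, s ∉ D
    · obtain ⟨s, hs, hsD⟩ := hex
      obtain ⟨d, hd, hdS, hW⟩ := (h.resolve_left hdm) s hs hsD
      rw [Finset.mem_insert, not_or] at hdS
      exact ⟨d, hd, hdS.2, W.mono G hW (Finset.Subset.refl _)
        (Finset.inter_subset_left.trans (Finset.subset_insert _ _))⟩
    · push Not at hex
      exact absurd (fun v hv => ⟨v, hex v hv, Or.inl rfl⟩) hdm

/-- module Base: a free move of Dominator -/
theorem W.free {B : Finset V} {k : ℕ} {D S : Finset V} (h : W G B (k + 1) D S) (hB : B.Nonempty) :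
    ∃ d ∈ B, W G B k (insert d D) S := by
  rcases W.free_strong G h with h1 | ⟨d, hd, -, hW⟩
  · obtain ⟨d, hd⟩ := hB
    exact ⟨d, hd, BaseAux.dm_W G (BaseAux.dm_mono G h1 (Finset.subset_insert _ _))⟩
  · exact ⟨d, hd, hW⟩

end

end Pool.Agent.MBG
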