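import Pool.Agent.MBG.Game

/-!
# Small boards
-/

set_option autoImplicit false

namespace Pool.Agent.MBG

/-- the grid -/
abbrev grid (n m : ℕ) : SimpleGraph (Fin n × Fin m) :=
  (SimpleGraph.pathGraph n).boxProd (SimpleGraph.pathGraph m)

/-- closed neighbours in the three times three board, cells numbered by `3 i + j` -/
def near (u v : ℕ) : Bool :=
  Nat.blt u 9 && (((u / 3 == v / 3) && ((u % 3 == v % 3) || (u % 3 + 1 == v % 3) || (v % 3 + 1 == u % 3))) ||
  ((u % 3 == v % 3) && ((u / 3 + 1 == v / 3) || (v / 3 + 1 == u / 3))))

def cells : List ℕ := [0, 1, 2, 3, 4, 5, 6, 7, 8]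

def order : List ℕ := [4, 1, 3, 5, 7, 0, 2, 6, 8]

def domb (D : List ℕ) : Bool := cells.all (fun v => D.any (fun u => near u v))

def free (D S : List ℕ) (v : ℕ) : Bool := !(D.contains v) && !(S.contains v)

def winb : ℕ → List ℕ → List ℕ → Bool
  | 0, D, _ => domb D
  | k + 1, D, S => domb D || (cells.any (fun v => free D S v) &&
      cells.all (fun s => !(free D S s) ||
        order.any (fun d => free D S d && !(d == s) && winb k (d :: D) (s :: S))))

theorem winb_start : winb 4 [] [] = true := by decide +kernel

/-- the number of a cell -/
def num (v : Fin 3 × Fin 3) : ℕ := 3 * v.1.val + v.2.val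

theorem num_inj {u v : Fin 3 × Fin 3} (h : num u = num v) : u = v := by
  revert u v; decide

theorem num_cells (v : Fin 3 × Fin 3) : num v ∈ cells := by
  revert v; decide

theorem exists_num {d : ℕ} (h : d ∈ order) : ∃ v : Fin 3 × Fin 3, num v = d := by
  revert d; decide

theorem exists_num' {d : ℕ} (h : d ∈ cells) : ∃ v : Fin 3 × Fin 3, num v = d := by
  revert d; decide

theorem near_adj {u v : Fin 3 × Fin 3} (h : near (num u) (num v) = true) :
    u = v ∨ (grid 3 3).Adj u v := by
  have key : ∀ u v : Fin 3 × Fin 3, near (num u) (num v) = true → u = v ∨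
      (((u.1.val + 1 = v.1.val ∨ v.1.val + 1 = u.1.val) ∧ u.2 = v.2) ∨
        ((u.2.val + 1 = v.2.val ∨ v.2.val + 1 = u.2.val) ∧ u.1 = v.1)) := by decide
  rcases key u v h with h | h
  · exact Or.inl h
  · right
    rw [SimpleGraph.boxProd_adj, SimpleGraph.pathGraph_adj, SimpleGraph.pathGraph_adj]
    exact h

theorem dom_of_domb {D : List ℕ} (h : domb D = true) :
    Dom (grid 3 3) {v | num v ∈ D} := by
  intro v
  unfold domb at h
  rw [List.all_eq_true] at h
  have h1 := h (num v) (num_cells v)
  rw [List.any_eq_true] at h1
  obtain ⟨u, hu, hn⟩ := h1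
  by_cases hc : u ∈ cells
  · obtain ⟨w, rfl⟩ := exists_num' hc
    exact ⟨w, hu, near_adj hn⟩
  · exfalso
    unfold near at hn
    rw [Bool.and_eq_true] at hn
    have hlt : u < 9 := by
      have := hn.1
      rw [Nat.blt_eq] at this
      exact this
    apply hc
    unfold cells
    simp only [List.mem_cons, List.not_mem_nil, or_false]
    omega

theorem win_of_winb {k : ℕ} {D S : List ℕ} (h : winb k D S = true) :
    Win (grid 3 3) k {v | num v ∈ D} {v | num v ∈ S} := by
  induction k generalizing D S with
  | zero => exact dom_of_domb h
  | succ k ih =>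
    unfold winb at h
    rw [Bool.or_eq_true] at h
    rcases h with h | h
    · exact Or.inl (dom_of_domb h)
    · rw [Bool.and_eq_true] at h
      obtain ⟨h1, h2⟩ := h
      rw [List.any_eq_true] at h1
      rw [List.all_eq_true] at h2
      have hfree : ∀ v, free D S v = true ↔ v ∉ D ∧ v ∉ S := by
        intro v
        unfold free
        simp
      right
      constructor
      · obtain ⟨v, hv, hf⟩ := h1
        obtain ⟨w, rfl⟩ := exists_num' hv
        rw [hfree] at hf
        exact ⟨w, hf.1, hf.2⟩
      · intro s hsD hsS
        have h3 := h2 (num s) (num_cells s)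
        have hs : free D S (num s) = true := (hfree _).2 ⟨hsD, hsS⟩
        rw [hs] at h3
        simp only [Bool.not_true, Bool.false_or] at h3
        rw [List.any_eq_true] at h3
        obtain ⟨d, hd, h4⟩ := h3
        rw [Bool.and_eq_true, Bool.and_eq_true, hfree] at h4
        obtain ⟨w, rfl⟩ := exists_num hd
        obtain ⟨⟨⟨h5, h6⟩, h7⟩, h8⟩ := h4
        refine ⟨w, h5, h6, ?_, ?_⟩
        · rintro rfl
          simp at h7
        · have := ih h8
          have e1 : {v : Fin 3 × Fin 3 | num v ∈ num w :: D} = insert w {v | num v ∈ D} := by
            ext v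
            simp only [Set.mem_ofPred_eq, List.mem_cons, Set.mem_insert_iff]
            constructor
            · rintro (h | h)
              · exact Or.inl (num_inj h)
              · exact Or.inr h
            · rintro (h | h)
              · exact Or.inl (by rw [h])
              · exact Or.inr h
          have e2 : {v : Fin 3 × Fin 3 | num v ∈ num s :: S} = insert s {v | num v ∈ S} := by
            ext v
            simp only [Set.mem_ofPred_eq, List.mem_cons, Set.mem_insert_iff]
            constructor
            · rintro (h | h)
              · exact Or.inl (num_inj h)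
              · exact Or.inr h
            · rintro (h | h)
              · exact Or.inl (by rw [h])
              · exact Or.inr h
          rw [e1, e2] at this
          exact this

theorem win_three : Win (grid 3 3) 4 ∅ ∅ := by
  have := win_of_winb winb_start
  simpa using this

end Pool.Agent.MBG
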