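import Mathlib

/-! Maker-Breaker domination games on grids: definitions (helper58). -/

set_option autoImplicit false

namespace Pool.Agent.MBG

/-- every vertex of `B` is in `D` or adjacent to a vertex of `D` -/
def Dm {V : Type*} (G : SimpleGraph V) (B D : Finset V) : Prop :=
  ∀ v ∈ B, ∃ u ∈ D, u = v ∨ G.Adj u v

/-- Auxiliary game on the part `B` of the board, Staller to move, Dominator has `D`, Staller `S`,
Dominator dominates `B` with at most `k` further moves; both may pass (Staller by choosing a vertex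
of `S`, Dominator by choosing a vertex of `D`). -/
def W {V : Type*} [DecidableEq V] (G : SimpleGraph V) (B : Finset V) :
    ℕ → Finset V → Finset V → Prop
  | 0, D, _ => Dm G B D
  | k + 1, D, S => Dm G B D ∨
      ∀ s ∈ B, s ∉ D → ∃ d ∈ B, d ∉ insert s S ∧ W G B k (insert d D) (insert s S)

/-- The Maker-Breaker domination game on the whole board, Staller to move, Dominator has chosen the
vertices of `D`, Staller those of `S`: Dominator can dominate with at most `k` further moves. -/
def Wins {V : Type*} [DecidableEq V] (G : SimpleGraph V) : ℕ → Finset V → Finset V → Prop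
  | 0, D, _ => ∀ v, ∃ u ∈ D, u = v ∨ G.Adj u v
  | k + 1, D, S => (∀ v, ∃ u ∈ D, u = v ∨ G.Adj u v) ∨
      ((∃ s, s ∉ D ∧ s ∉ S) ∧ ∀ s, s ∉ D → s ∉ S →
        ∃ d, d ≠ s ∧ d ∉ D ∧ d ∉ S ∧ Wins G k (insert d D) (insert s S))

/-- `γ'_MB`: the S-game (Staller moves first) -/
noncomputable def gammaS {V : Type*} [DecidableEq V] (G : SimpleGraph V) : ℕ∞ :=
  sInf {x : ℕ∞ | ∃ k : ℕ, x = k ∧ Wins G k ∅ ∅}

/-- `γ_MB`: the D-game (Dominator moves first) -/
noncomputable def gammaD {V : Type*} [DecidableEq V] (G : SimpleGraph V) : ℕ∞ :=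
  sInf {x : ℕ∞ | ∃ (k : ℕ) (d : V), x = (k + 1 : ℕ) ∧ Wins G k {d} ∅}

/-- the grid -/
abbrev Grid (n m : ℕ) : SimpleGraph (Fin n × Fin m) :=
  SimpleGraph.pathGraph n □ SimpleGraph.pathGraph m

end Pool.Agent.MBG
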