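import Pool.Agent.MBG.Grid6
import Pool.Agent.MBG.Defs

/-!
# Both games
-/

set_option autoImplicit false

namespace Pool.Agent.MBG

theorem wins_of_win {V : Type} [DecidableEq V] {G : SimpleGraph V} {k : ℕ} {D S : Finset V}
    (h : Win G k (D : Set V) (S : Set V)) : Wins G k D S := by
  induction k generalizing D S with
  | zero =>
    intro v
    obtain ⟨u, hu, h⟩ := h v
    exact ⟨u, by exact_mod_cast hu, h⟩
  | succ k ih =>
    rcases h with h | ⟨⟨v, hvD, hvS⟩, h2⟩
    · left
      intro v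
      obtain ⟨u, hu, h⟩ := h v
      exact ⟨u, by exact_mod_cast hu, h⟩
    · right
      refine ⟨⟨v, by exact_mod_cast hvD, by exact_mod_cast hvS⟩, fun s hsD hsS => ?_⟩
      obtain ⟨d, h3, h4, h5, h6⟩ := h2 s (by exact_mod_cast hsD) (by exact_mod_cast hsS)
      refine ⟨d, h5, by exact_mod_cast h3, by exact_mod_cast h4, ih ?_⟩
      rw [Finset.coe_insert, Finset.coe_insert]
      exact h6

theorem gammaS_le {V : Type} [DecidableEq V] {G : SimpleGraph V} {k : ℕ} (h : Win G k ∅ ∅) :
    gammaS G ≤ (k : ℕ∞) := by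
  refine sInf_le ⟨k, rfl, wins_of_win ?_⟩
  rw [Finset.coe_empty]
  exact h

theorem gammaD_le {V : Type} [DecidableEq V] {G : SimpleGraph V} [Nonempty V] {k : ℕ}
    (h : Win G k ∅ ∅) : gammaD G ≤ (k : ℕ∞) := by
  have hnd : ¬ Dom G (∅ : Set V) := by
    intro hd
    obtain ⟨v⟩ := (inferInstance : Nonempty V)
    obtain ⟨u, hu, _⟩ := hd v
    exact hu
  cases k with
  | zero => exact absurd h hnd
  | succ k =>
    rcases h with h | ⟨⟨v, hvD, hvS⟩, h2⟩
    · exact absurd h hnd
    · obtain ⟨d, _, _, _, h6⟩ := h2 v hvD hvS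
      refine sInf_le ⟨k, d, rfl, wins_of_win ?_⟩
      rw [Finset.coe_empty, Finset.coe_singleton]
      have := h6.mono_S (Set.empty_subset _)
      simpa using this

end Pool.Agent.MBG
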