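import Pool.Agent.MBG.Tree

/-! Maker-Breaker domination games on grids: the 3 x 5 block (helper58). -/

set_option autoImplicit false

namespace Pool.Agent.MBG

section
variable {V : Type*} [DecidableEq V] (G : SimpleGraph V)

private theorem W_mono' {B : Finset V} {k : ℕ} {D S D' S' : Finset V} (h : W G B k D S) (hD : D ⊆ D')
    (hS : S' ⊆ S) : W G B k D' S' := by
  induction k generalizing D S D' S' with
  | zero =>
    intro v hv
    obtain ⟨u, hu, h'⟩ := h v hv
    exact ⟨u, hD hu, h'⟩
  | succ k ih =>
    rcases h with h | h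
    · left
      intro v hv
      obtain ⟨u, hu, h'⟩ := h v hv
      exact ⟨u, hD hu, h'⟩
    · right
      intro s hs hsD
      obtain ⟨d, hd, hdS, hW⟩ := h s hs (fun h' => hsD (hD h'))
      exact ⟨d, hd, fun h' => hdS (Finset.insert_subset_insert s hS h'), 
        ih hW (Finset.insert_subset_insert d hD) (Finset.insert_subset_insert s hS)⟩

private theorem W_dm {B : Finset V} {k : ℕ} {D S : Finset V} (h : Dm G B D) : W G B k D S := by
  cases k with
  | zero => exact h
  | succ k => exact Or.inl h

end

/-- number of a cell -/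
def cell (p : Fin 3 × Fin 5) : ℕ := 5 * p.1.val + p.2.val

theorem cell_inj : ∀ p q : Fin 3 × Fin 5, cell p = cell q → p = q := by decide

theorem cell_surj : ∀ d, d < 15 → ∃ p, cell p = d := by decide

theorem nbm_ok : ∀ p q : Fin 3 × Fin 5, (nbm (cell p)).testBit (cell q) = true →
    (p = q ∨ ((p.1.val + 1 = q.1.val ∨ q.1.val + 1 = p.1.val) ∧ p.2 = q.2) ∨
      ((p.2.val + 1 = q.2.val ∨ q.2.val + 1 = p.2.val) ∧ p.1 = q.1)) := by decide +kernel

theorem nbm_adj (p q : Fin 3 × Fin 5) (h : (nbm (cell p)).testBit (cell q) = true) :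
    p = q ∨ (Grid 3 5).Adj p q := by
  rcases nbm_ok p q h with h | h | h
  · exact Or.inl h
  · right
    rw [SimpleGraph.boxProd_adj]
    left
    refine ⟨?_, h.2⟩
    rw [SimpleGraph.pathGraph_adj]
    exact h.1
  · right
    rw [SimpleGraph.boxProd_adj]
    right
    refine ⟨?_, h.2⟩
    rw [SimpleGraph.pathGraph_adj]
    exact h.1

/-- `F` is the mask of the free cells -/
def RepF (F : ℕ) (D S : Finset (Fin 3 × Fin 5)) : Prop :=
  ∀ p, F.testBit (cell p) = true ↔ p ∉ D ∧ p ∉ S

/-- every cell outside `U` is dominated -/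
def RepU (U : ℕ) (D : Finset (Fin 3 × Fin 5)) : Prop :=
  ∀ p, U.testBit (cell p) = false → ∃ u ∈ D, u = p ∨ (Grid 3 5).Adj u p

def Snd (c : C) : Prop := ∀ (k F U cov : ℕ) (D S : Finset (Fin 3 × Fin 5)),
  chk c k F U cov = true → RepF F D S → RepU U D → U ≠ 0 → ∀ s, cov.testBit (cell s) = true →
    s ∉ D → s ∉ S → ∃ d, d ∉ insert s S ∧ ∃ k', k = k' + 1 ∧
      W (Grid 3 5) Finset.univ k' (insert d D) (insert s S)

theorem toW (c : C) (hc : Snd c) (k F U : ℕ) (D S : Finset (Fin 3 × Fin 5))
    (h : chk c k F U F = true) (hF : RepF F D S) (hU : RepU U D) :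
    W (Grid 3 5) Finset.univ k D S := by
  by_cases hU0 : U = 0
  · subst hU0
    exact W_dm _ fun p _ => hU p (Nat.zero_testBit _)
  have key := hc k F U F D S h hF hU hU0
  cases c with
  | z =>
    rw [chk_z] at h
    simp [hU0] at h
  | a r s t =>
    rw [chk_a] at h
    simp only [Bool.and_eq_true, Bool.not_eq_true', beq_eq_false_iff_ne, ne_eq, beq_iff_eq] at h
    obtain ⟨⟨⟨⟨⟨h1, h2⟩, h3⟩, h4⟩, h5⟩, h6⟩ := h
    obtain ⟨p, hp⟩ := cell_surj (r % 16) (Nat.blt_eq.mp h2)
    have hpF : F.testBit (cell p) = true := by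
      have := congrArg (fun x => Nat.testBit x (cell p)) h3
      simp only [Nat.testBit_and, Nat.testBit_or, hp, Nat.testBit_two_pow_self, Bool.or_true,
        Bool.and_true] at this
      rw [hp]; exact this
    have hp' := (hF p).mp hpF
    obtain ⟨d0, hd0, k', hk', hW0⟩ := key p hpF hp'.1 hp'.2
    subst hk'
    right
    intro x _ hxD
    by_cases hxS : x ∈ S
    · refine ⟨d0, Finset.mem_univ _, fun h' => hd0 ?_, W_mono' _ hW0 (Finset.Subset.refl _) ?_⟩
      · rw [Finset.insert_eq_self.mpr hxS] at h'
        exact Finset.mem_insert_of_mem h'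
      · rw [Finset.insert_eq_self.mpr hxS]
        exact Finset.subset_insert _ _
    · obtain ⟨d, hd, k'', hk'', hW⟩ := key x ((hF x).mpr ⟨hxD, hxS⟩) hxD hxS
      obtain rfl : k' = k'' := by omega
      exact ⟨d, Finset.mem_univ _, hd, hW⟩

theorem snd_all (c : C) : Snd c := by
  induction c with
  | z =>
    intro k F U cov D S h hF hU hU0 s hs
    rw [chk_z] at h
    have : cov = 0 := by
      by_contra hne
      simp [hU0, hne] at h
    subst this
    simp at hs
  | a r c1 c2 ih1 ih2 =>
    intro k F U cov D S h hF hU hU0 s hs hsD hsS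
    rw [chk_a] at h
    simp only [Bool.and_eq_true, Bool.not_eq_true', beq_eq_false_iff_ne, ne_eq, beq_iff_eq] at h
    obtain ⟨⟨⟨⟨⟨h1, h2⟩, h3⟩, h4⟩, h5⟩, h6⟩ := h
    obtain ⟨p, hp⟩ := cell_surj (r % 16) (Nat.blt_eq.mp h2)
    have hX : ∀ q, (r / 16 ||| 2 ^ (r % 16)).testBit (cell q) = ((r / 16).testBit (cell q) || decide (p = q)) := by
      intro q
      rw [Nat.testBit_or, ← hp, Nat.testBit_two_pow]
      congr 1
      rw [decide_eq_decide]
      exact ⟨fun h => cell_inj _ _ h, fun h => by rw [h]⟩
    have hXF : ∀ q, (r / 16 ||| 2 ^ (r % 16)).testBit (cell q) = true → F.testBit (cell q) = true := by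
      intro q hq
      have := congrArg (fun x => Nat.testBit x (cell q)) h3
      simp only [Nat.testBit_and] at this
      rw [hq] at this
      simpa using this
    have hpA : (r / 16).testBit (cell p) = false := by
      have := congrArg (fun x => Nat.testBit x (cell p)) h4
      simp only [Nat.testBit_and, ← hp, Nat.testBit_two_pow_self, Bool.and_true, Nat.zero_testBit] at this
      exact this
    have hpF := hXF p (by rw [hX]; simp)
    have hp' := (hF p).mp hpF
    by_cases hA : (r / 16).testBit (cell s) = true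
    · obtain ⟨k', rfl⟩ : ∃ k', k = k' + 1 := ⟨k - 1, by omega⟩
      have hW := toW c1 ih1 (k' + 1 - 1) _ _ (insert p D)
        (S ∪ Finset.univ.filter (fun q => (r / 16).testBit (cell q) = true)) h5 (by
          intro q
          rw [Nat.testBit_xor, hX]
          simp only [Finset.mem_insert, Finset.mem_union, Finset.mem_filter, Finset.mem_univ,
            true_and, not_or, Bool.not_eq_true]
          have h7 := hF q
          have h8 := hXF q
          rw [hX] at h8
          cases hq1 : (r / 16).testBit (cell q) <;> by_cases hq2 : p = q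
          · subst hq2; simp [hpF]
          · have hq3 : ¬ q = p := fun h => hq2 h.symm
            simp [hq2, hq3, h7]
          · subst hq2; rw [hpA] at hq1; simp at hq1
          · have := h8 (by simp [hq1])
            simp [hq2, this]) (by
          intro q hq
          rw [Nat.testBit_xor, Nat.testBit_and] at hq
          cases hq1 : U.testBit (cell q)
          · obtain ⟨u, hu, h'⟩ := hU q hq1
            exact ⟨u, Finset.mem_insert_of_mem hu, h'⟩
          · rw [hq1] at hq
            refine ⟨p, Finset.mem_insert_self _ _, nbm_adj p q ?_⟩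
            rw [hp]
            simpa using hq)
      refine ⟨p, ?_, k', rfl, W_mono' _ hW (Finset.Subset.refl _) ?_⟩
      · rw [Finset.mem_insert, not_or]
        refine ⟨?_, hp'.2⟩
        rintro rfl
        rw [hpA] at hA
        exact absurd hA (by simp)
      · intro q hq
        rw [Finset.mem_insert] at hq
        rw [Finset.mem_union, Finset.mem_filter]
        rcases hq with rfl | hq
        · exact Or.inr ⟨Finset.mem_univ _, hA⟩
        · exact Or.inl hq
    · refine ih2 k F U _ D S h6 hF hU hU0 s ?_ hsD hsS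
      rw [Nat.testBit_xor, Nat.testBit_and, hs]
      simpa using hA

/-- module Cert -/
theorem block35 : W (Grid 3 5) Finset.univ 6 ∅ ∅ := by
  refine toW qroot (snd_all _) 6 32767 32767 ∅ ∅ qroot_ok ?_ ?_
  · have : ∀ p : Fin 3 × Fin 5, (32767 : ℕ).testBit (cell p) = true := by decide
    intro p
    simp [this p]
  · have : ∀ p : Fin 3 × Fin 5, (32767 : ℕ).testBit (cell p) = true := by decide
    intro p hp
    rw [this p] at hp
    exact absurd hp (by simp)

end Pool.Agent.MBG
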