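import Pool.Agent.MBG.Defs

/-! Maker-Breaker domination games on grids: checker of strategy trees (helper58). -/

set_option autoImplicit false

namespace Pool.Agent.MBG

/-- strategy trees: `a r sub rest`, `r = 16 A + d`: the vertex `d` is the reply to every vertex of the
mask `A`, and `sub` is a strategy tree for the position in which Staller has all of `A`; `z` ends the list -/
inductive C where
  | z : C
  | a (r : ℕ) (sub rest : C) : C

/-- closed neighbourhoods of the 3 x 5 grid, 16 bits each -/
def nbm (d : ℕ) : ℕ :=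
  (676383042365226490323857245134725508345294140083528335006739186869272611 >>> (16 * d)) &&& 32767

/-- the checker: `k` moves left, free mask `F`, undominated mask `U`, free vertices not yet covered `cov` -/
noncomputable def chk (c : C) : ℕ → ℕ → ℕ → ℕ → Bool :=
  C.rec (fun _ F U cov => (U == 0) || ((cov == 0) && !(F == 0)))
    (fun r _ _ isub irest k F U cov =>
      !(k == 0) && (Nat.blt (r % 16) 15) &&
      (F &&& (r / 16 ||| 2 ^ (r % 16)) == (r / 16 ||| 2 ^ (r % 16))) &&
      (r / 16 &&& 2 ^ (r % 16) == 0) &&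
      isub (k - 1) (F ^^^ (r / 16 ||| 2 ^ (r % 16))) (U ^^^ (U &&& nbm (r % 16)))
        (F ^^^ (r / 16 ||| 2 ^ (r % 16))) &&
      irest k F U (cov ^^^ (cov &&& (r / 16)))) c

theorem chk_z (k F U cov : ℕ) : chk .z k F U cov = ((U == 0) || ((cov == 0) && !(F == 0))) := rfl

theorem chk_a (r : ℕ) (s t : C) (k F U cov : ℕ) : chk (.a r s t) k F U cov =
    (!(k == 0) && (Nat.blt (r % 16) 15) &&
      (F &&& (r / 16 ||| 2 ^ (r % 16)) == (r / 16 ||| 2 ^ (r % 16))) &&
      (r / 16 &&& 2 ^ (r % 16) == 0) &&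
      chk s (k - 1) (F ^^^ (r / 16 ||| 2 ^ (r % 16))) (U ^^^ (U &&& nbm (r % 16)))
        (F ^^^ (r / 16 ||| 2 ^ (r % 16))) &&
      chk t k F U (cov ^^^ (cov &&& (r / 16)))) := rfl

end Pool.Agent.MBG
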