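import Pool.Agent.MBG.Base

/-! Disjoint parts of the board (helper94). -/

set_option autoImplicit false

namespace Pool.Agent.MBG

section
variable {V : Type*} [DecidableEq V] (G : SimpleGraph V)

theorem CompAux.dm_mono {B D D' : Finset V} (h : Dm G B D) (hD : D ⊆ D') : Dm G B D' := by
  intro v hv
  obtain ⟨u, hu, h1⟩ := h v hv
  exact ⟨u, hD hu, h1⟩

theorem CompAux.dm_W {B : Finset V} {k : ℕ} {D S : Finset V} (h : Dm G B D) : W G B k D S := by
  cases k with
  | zero => exact h
  | succ k => exact Or.inl h

theorem CompAux.free {B : Finset V} {k : ℕ} {D S : Finset V} (h : W G B (k + 1) D S)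
    (hdm : ¬ Dm G B D) : ∃ d ∈ B, d ∉ S ∧ W G B k (insert d D) S := by
  by_cases hex : ∃ s ∈ B, s ∉ D
  · obtain ⟨s, hs, hsD⟩ := hex
    obtain ⟨d, hd, hdS, hW⟩ := (h.resolve_left hdm) s hs hsD
    rw [Finset.mem_insert, not_or] at hdS
    exact ⟨d, hd, hdS.2, W.mono G hW (Finset.Subset.refl _)
      (Finset.inter_subset_left.trans (Finset.subset_insert _ _))⟩
  · push Not at hex
    exact absurd (fun v hv => ⟨v, hex v hv, Or.inl rfl⟩) hdm

theorem CompAux.step {B B' : Finset V} (hd : Disjoint B B') {N : ℕ}
    (ih : ∀ (k l : ℕ) (D S : Finset V), k + l = N → W G B k D S → W G B' l D S →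
      W G (B ∪ B') N D S)
    {k l : ℕ} {D S : Finset V} (hkl : k + l = N + 1) (h : W G B k D S) (h' : W G B' l D S)
    (hnot : ¬ (Dm G B D ∧ Dm G B' D)) {s : V} (hs : s ∈ B) (hsD : s ∉ D) :
    ∃ d ∈ B ∪ B', d ∉ insert s S ∧ W G (B ∪ B') N (insert d D) (insert s S) := by
  have hsB' : s ∉ B' := Finset.disjoint_left.1 hd hs
  have hS : insert s S ∩ B' ⊆ S := by
    intro x hx
    rw [Finset.mem_inter, Finset.mem_insert] at hx
    rcases hx.1 with h1 | h1
    · exact absurd (h1 ▸ hx.2) hsB'
    · exact h1
  by_cases hdm : Dm G B D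
  · have hdm' : ¬ Dm G B' D := fun h1 => hnot ⟨hdm, h1⟩
    cases l with
    | zero => exact absurd h' hdm'
    | succ l =>
      obtain ⟨d, hdB, hdS, hW⟩ := CompAux.free G h' hdm'
      refine ⟨d, Finset.mem_union_right _ hdB, ?_, ih k l _ _ (by omega)
        (CompAux.dm_W G (CompAux.dm_mono G hdm (Finset.subset_insert _ _)))
        (W.mono G hW (Finset.Subset.refl _) hS)⟩
      rw [Finset.mem_insert, not_or]
      exact ⟨fun h1 => hsB' (h1 ▸ hdB), hdS⟩
  · cases k with
    | zero => exact absurd h hdm
    | succ k =>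
      obtain ⟨d, hdB, hdS, hW⟩ := (h.resolve_left hdm) s hs hsD
      exact ⟨d, Finset.mem_union_left _ hdB, hdS, ih k l _ _ (by omega) hW
        (W.mono G h' (Finset.subset_insert _ _) hS)⟩

/-- module Comp: disjoint boards -/
theorem W.comp {B B' : Finset V} {k l : ℕ} {D S : Finset V} (h : W G B k D S) (h' : W G B' l D S)
    (hd : Disjoint B B') : W G (B ∪ B') (k + l) D S := by
  have key : ∀ (N k l : ℕ) (D S : Finset V), k + l = N → W G B k D S → W G B' l D S →
      W G (B ∪ B') N D S := by
    intro N
    induction N with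
    | zero =>
      intro k l D S hkl h h'
      obtain ⟨rfl, rfl⟩ : k = 0 ∧ l = 0 := by omega
      intro v hv
      rcases Finset.mem_union.1 hv with h1 | h1
      · exact h v h1
      · exact h' v h1
    | succ N ih =>
      intro k l D S hkl h h'
      by_cases hnot : Dm G B D ∧ Dm G B' D
      · refine Or.inl fun v hv => ?_
        rcases Finset.mem_union.1 hv with h1 | h1
        · exact hnot.1 v h1
        · exact hnot.2 v h1
      · refine Or.inr fun s hs hsD => ?_
        rcases Finset.mem_union.1 hs with h1 | h1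
        · exact CompAux.step G hd ih hkl h h' hnot h1 hsD
        · have hstep := CompAux.step G hd.symm
            (fun k l D S hkl h h' => by
              rw [Finset.union_comm]
              exact ih l k D S (by omega) h' h)
            (k := l) (l := k) (D := D) (S := S) (by omega) h' h
            (fun h2 => hnot ⟨h2.2, h2.1⟩) h1 hsD
          rw [Finset.union_comm] at hstep
          exact hstep
  exact key _ k l D S rfl h h'

end

end Pool.Agent.MBG
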