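import Mathlib

/-!
# The Staller-first Maker-Breaker domination game
-/

set_option autoImplicit false

namespace Pool.Agent.MBG

/-- `D` dominates `G`. -/
def Dom {V : Type} (G : SimpleGraph V) (D : Set V) : Prop :=
  ∀ v, ∃ u ∈ D, u = v ∨ G.Adj u v

/-- Staller is to move, Dominator has chosen `D` and Staller has chosen `S`; Dominator has a strategy
after which his vertices dominate `G` after at most `k` further moves of his. -/
def Win {V : Type} (G : SimpleGraph V) : ℕ → Set V → Set V → Prop
  | 0, D, _ => Dom G D
  | k + 1, D, S => Dom G D ∨ ((∃ v, v ∉ D ∧ v ∉ S) ∧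
      ∀ s, s ∉ D → s ∉ S → ∃ d, d ∉ D ∧ d ∉ S ∧ d ≠ s ∧ Win G k (insert d D) (insert s S))

variable {V V' : Type} {G : SimpleGraph V}

theorem Win.of_dom {k : ℕ} {D S : Set V} (h : Dom G D) : Win G k D S := by
  cases k with
  | zero => exact h
  | succ k => exact Or.inl h

theorem Win.succ {k : ℕ} {D S : Set V} (h : Win G k D S) : Win G (k + 1) D S := by
  induction k generalizing D S with
  | zero => exact Or.inl h
  | succ k ih =>
    rcases h with h | ⟨h1, h2⟩
    · exact Or.inl h
    · refine Or.inr ⟨h1, fun s hsD hsS => ?_⟩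
      obtain ⟨d, h3, h4, h5, h6⟩ := h2 s hsD hsS
      exact ⟨d, h3, h4, h5, ih h6⟩

theorem Win.mono_k {k k' : ℕ} {D S : Set V} (h : Win G k D S) (hk : k ≤ k') : Win G k' D S := by
  induction hk with
  | refl => exact h
  | step _ ih => exact ih.succ

/-- Fewer vertices of Staller. -/
theorem Win.mono_S {k : ℕ} {D S S' : Set V} (h : Win G k D S) (hS : S' ⊆ S) : Win G k D S' := by
  induction k generalizing D S S' with
  | zero => exact h
  | succ k ih =>
    rcases h with h | ⟨⟨v, hvD, hvS⟩, h2⟩
    · exact Or.inl h
    · refine Or.inr ⟨⟨v, hvD, fun h => hvS (hS h)⟩, fun s hsD hsS' => ?_⟩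
      by_cases hsS : s ∈ S
      · obtain ⟨d, h3, h4, h5, h6⟩ := h2 v hvD hvS
        refine ⟨d, h3, fun h => h4 (hS h), fun h => h4 (h ▸ hsS), ih h6 ?_⟩
        intro x hx
        rcases hx with rfl | hx
        · exact Or.inr hsS
        · exact Or.inr (hS hx)
      · obtain ⟨d, h3, h4, h5, h6⟩ := h2 s hsD hsS
        exact ⟨d, h3, fun h => h4 (hS h), h5, ih h6 (Set.insert_subset_insert hS)⟩

/-- Transport along a bijection which preserves adjacency. -/
theorem Win.map {G' : SimpleGraph V'} (e : V ≃ V') (he : ∀ x y, G.Adj x y → G'.Adj (e x) (e y))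
    {k : ℕ} {D S : Set V} (h : Win G k D S) : Win G' k (e '' D) (e '' S) := by
  have hd : ∀ {D : Set V}, Dom G D → Dom G' (e '' D) := by
    intro D hD v
    obtain ⟨u, hu, h⟩ := hD (e.symm v)
    refine ⟨e u, ⟨u, hu, rfl⟩, ?_⟩
    rcases h with h | h
    · left; rw [h]; simp
    · right
      have := he _ _ h
      simpa using this
  have hm : ∀ (A : Set V) (x : V'), x ∉ e '' A ↔ e.symm x ∉ A := by
    intro A x
    constructor
    · intro h h'
      exact h ⟨_, h', by simp⟩
    · rintro h ⟨y, hy, rfl⟩
      exact h (by simpa using hy)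
  induction k generalizing D S with
  | zero => exact hd h
  | succ k ih =>
    rcases h with h | ⟨⟨v, hvD, hvS⟩, h2⟩
    · exact Or.inl (hd h)
    · refine Or.inr ⟨⟨e v, (hm _ _).2 (by simpa using hvD), (hm _ _).2 (by simpa using hvS)⟩,
        fun s hsD hsS => ?_⟩
      obtain ⟨d, h3, h4, h5, h6⟩ := h2 (e.symm s) ((hm _ _).1 hsD) ((hm _ _).1 hsS)
      refine ⟨e d, (hm _ _).2 (by simpa using h3), (hm _ _).2 (by simpa using h4), ?_, ?_⟩
      · intro h
        apply h5
        rw [← h]; simp
      · have := ih h6
        rw [Set.image_insert_eq, Set.image_insert_eq] at this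
        simpa using this

/-- The disjoint union of two graphs. -/
def union (G : SimpleGraph V) (G' : SimpleGraph V') : SimpleGraph (V ⊕ V') where
  Adj
    | .inl x, .inl y => G.Adj x y
    | .inr x, .inr y => G'.Adj x y
    | _, _ => False
  symm := ⟨by
    intro x y h
    rcases x with x | x <;> rcases y with y | y
    · exact G.symm.symm _ _ h
    · exact h
    · exact h
    · exact G'.symm.symm _ _ h⟩
  loopless := ⟨by
    intro x h
    rcases x with x | x
    · exact G.irrefl h
    · exact G'.irrefl h⟩

/-- the union of two sets -/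
def su (A : Set V) (B : Set V') : Set (V ⊕ V') := fun x => Sum.casesOn x (fun a => a ∈ A) (fun b => b ∈ B)

theorem su_inl {A : Set V} {B : Set V'} {x : V} : (Sum.inl x : V ⊕ V') ∈ su A B ↔ x ∈ A := Iff.rfl
theorem su_inr {A : Set V} {B : Set V'} {x : V'} : (Sum.inr x : V ⊕ V') ∈ su A B ↔ x ∈ B := Iff.rfl

theorem insert_inl (A : Set V) (B : Set V') (x : V) :
    insert (Sum.inl x : V ⊕ V') (su A B) = su (insert x A) B := by
  ext y
  rcases y with y | y
  · rw [Set.mem_insert_iff, su_inl, su_inl, Set.mem_insert_iff, Sum.inl.injEq]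
  · rw [Set.mem_insert_iff, su_inr, su_inr]
    simp

theorem insert_inr (A : Set V) (B : Set V') (x : V') :
    insert (Sum.inr x : V ⊕ V') (su A B) = su A (insert x B) := by
  ext y
  rcases y with y | y
  · rw [Set.mem_insert_iff, su_inl, su_inl]
    simp
  · rw [Set.mem_insert_iff, su_inr, su_inr, Set.mem_insert_iff, Sum.inr.injEq]

theorem dom_union {G' : SimpleGraph V'} {A : Set V} {B : Set V'} (h : Dom G A) (h' : Dom G' B) :
    Dom (union G G') (su A B) := by
  intro v
  rcases v with v | v
  · obtain ⟨u, hu, h⟩ := h v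
    refine ⟨Sum.inl u, hu, ?_⟩
    rcases h with h | h
    · left; rw [h]
    · right; exact h
  · obtain ⟨u, hu, h⟩ := h' v
    refine ⟨Sum.inr u, hu, ?_⟩
    rcases h with h | h
    · left; rw [h]
    · right; exact h

/-- The numbers of moves add up under disjoint union. -/
theorem win_union {G' : SimpleGraph V'} (n : ℕ) {k k' : ℕ} (hn : k + k' = n) {D S : Set V}
    {D' S' : Set V'} (h : Win G k D S) (h' : Win G' k' D' S') :
    Win (union G G') n (su D D') (su S S') := by
  induction n generalizing k k' D S D' S' with
  | zero =>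
    have h1 : k = 0 := by omega
    have h2 : k' = 0 := by omega
    subst h1; subst h2
    exact dom_union h h'
  | succ n ih =>
    by_cases hd : Dom G D
    · by_cases hd' : Dom G' D'
      · exact Or.inl (dom_union hd hd')
      · -- only the second part is open
        cases k' with
        | zero => exact absurd h' hd'
        | succ k' =>
          rcases h' with h' | ⟨⟨v, hvD, hvS⟩, h2⟩
          · exact absurd h' hd'
          · refine Or.inr ⟨⟨Sum.inr v, hvD, hvS⟩, fun s hsD hsS => ?_⟩
            rcases s with s | s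
            · obtain ⟨d, h3, h4, h5, h6⟩ := h2 v hvD hvS
              refine ⟨Sum.inr d, h3, h4, by simp, ?_⟩
              rw [insert_inr, insert_inl]
              have h0 : Win G k D (insert s S) := Win.of_dom hd
              exact ih (by omega) h0 (h6.mono_S (Set.subset_insert _ _))
            · obtain ⟨d, h3, h4, h5, h6⟩ := h2 s hsD hsS
              refine ⟨Sum.inr d, h3, h4, fun h => h5 (Sum.inr.inj h), ?_⟩
              rw [insert_inr, insert_inr]
              exact ih (by omega) h h6
    · cases k with
      | zero => exact absurd h hd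
      | succ k =>
        have hk0 := h
        rcases h with h | ⟨⟨v, hvD, hvS⟩, h2⟩
        · exact absurd h hd
        · refine Or.inr ⟨⟨Sum.inl v, hvD, hvS⟩, fun s hsD hsS => ?_⟩
          rcases s with s | s
          · obtain ⟨d, h3, h4, h5, h6⟩ := h2 s hsD hsS
            refine ⟨Sum.inl d, h3, h4, fun h => h5 (Sum.inl.inj h), ?_⟩
            rw [insert_inl, insert_inl]
            exact ih (by omega) h6 h'
          · by_cases hd' : Dom G' D'
            · obtain ⟨d, h3, h4, h5, h6⟩ := h2 v hvD hvS
              refine ⟨Sum.inl d, h3, h4, by simp, ?_⟩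
              rw [insert_inl, insert_inr]
              have h0 : Win G' k' D' (insert s S') := Win.of_dom hd'
              exact ih (by omega) (h6.mono_S (Set.subset_insert _ _)) h0
            · cases k' with
              | zero => exact absurd h' hd'
              | succ k' =>
                rcases h' with h' | ⟨_, h2'⟩
                · exact absurd h' hd'
                · obtain ⟨d, h3, h4, h5, h6⟩ := h2' s hsD hsS
                  refine ⟨Sum.inr d, h3, h4, fun h => h5 (Sum.inr.inj h), ?_⟩
                  rw [insert_inr, insert_inr]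
                  exact ih (by omega) hk0 h6

end Pool.Agent.MBG
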