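import Pool.Agent.MBG.Block

/-!
# Grids
-/

set_option autoImplicit false

namespace Pool.Agent.MBG

theorem win_swap {n m k : ℕ} (h : Win (grid n m) k ∅ ∅) : Win (grid m n) k ∅ ∅ := by
  have := Win.map (G' := grid m n) (Equiv.prodComm (Fin n) (Fin m)) (by
    intro x y hxy
    rw [SimpleGraph.boxProd_adj] at hxy ⊢
    rcases hxy with hxy | hxy
    · exact Or.inr hxy
    · exact Or.inl hxy) h
  simpa using this

theorem win_add {n n' m k k' : ℕ} (h : Win (grid n m) k ∅ ∅) (h' : Win (grid n' m) k' ∅ ∅) :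
    Win (grid (n + n') m) (k + k') ∅ ∅ := by
  have h1 := win_union (k + k') rfl h h'
  have h2 := Win.map (G' := grid (n + n') m)
    ((Equiv.sumProdDistrib (Fin n) (Fin n') (Fin m)).symm.trans
      (finSumFinEquiv.prodCongr (Equiv.refl _))) (by
    intro x y hxy
    rcases x with ⟨x1, x2⟩ | ⟨x1, x2⟩ <;> rcases y with ⟨y1, y2⟩ | ⟨y1, y2⟩
    · have hxy' : (grid n m).Adj (x1, x2) (y1, y2) := hxy
      rw [SimpleGraph.boxProd_adj, SimpleGraph.pathGraph_adj, SimpleGraph.pathGraph_adj] at hxy'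
      rw [SimpleGraph.boxProd_adj, SimpleGraph.pathGraph_adj, SimpleGraph.pathGraph_adj]
      simp only [Equiv.trans_apply, Equiv.sumProdDistrib_symm_apply_left, Equiv.prodCongr_apply,
        Prod.map, Equiv.refl_apply, finSumFinEquiv_apply_left, Fin.val_castAdd] at hxy' ⊢
      rcases hxy' with ⟨h1, h2⟩ | ⟨h1, h2⟩
      · exact Or.inl ⟨h1, h2⟩
      · exact Or.inr ⟨h1, by rw [h2]⟩
    · exact absurd hxy (by intro h; exact h)
    · exact absurd hxy (by intro h; exact h)
    · have hxy' : (grid n' m).Adj (x1, x2) (y1, y2) := hxy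
      rw [SimpleGraph.boxProd_adj, SimpleGraph.pathGraph_adj, SimpleGraph.pathGraph_adj] at hxy'
      rw [SimpleGraph.boxProd_adj, SimpleGraph.pathGraph_adj, SimpleGraph.pathGraph_adj]
      simp only [Equiv.trans_apply, Equiv.sumProdDistrib_symm_apply_right, Equiv.prodCongr_apply,
        Prod.map, Equiv.refl_apply, finSumFinEquiv_apply_right, Fin.val_natAdd] at hxy' ⊢
      rcases hxy' with ⟨h1, h2⟩ | ⟨h1, h2⟩
      · exact Or.inl ⟨by omega, h2⟩
      · exact Or.inr ⟨h1, by rw [h2]⟩) h1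
  have e1 : su (∅ : Set (Fin n × Fin m)) (∅ : Set (Fin n' × Fin m)) = ∅ := by
    ext x
    rcases x with x | x
    · rw [su_inl]; simp
    · rw [su_inr]; simp
  rw [e1] at h2
  simpa using h2

theorem win_empty (m : ℕ) : Win (grid 0 m) 0 ∅ ∅ := by
  intro v
  exact v.1.elim0

theorem win_domino : Win (grid 2 1) 1 ∅ ∅ := by
  refine Or.inr ⟨⟨(0, 0), by simp, by simp⟩, fun s _ _ => ?_⟩
  have hcase : s = (0, 0) ∨ s = (1, 0) := by
    revert s
    decide
  rcases hcase with rfl | rfl
  · refine ⟨(1, 0), by simp, by simp, by decide, ?_⟩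
    intro v
    refine ⟨(1, 0), Set.mem_insert _ _, ?_⟩
    have hv : v = (0, 0) ∨ v = (1, 0) := by revert v; decide
    rcases hv with rfl | rfl
    · right
      rw [SimpleGraph.boxProd_adj, SimpleGraph.pathGraph_adj]
      left
      exact ⟨Or.inr rfl, rfl⟩
    · exact Or.inl rfl
  · refine ⟨(0, 0), by simp, by simp, by decide, ?_⟩
    intro v
    refine ⟨(0, 0), Set.mem_insert _ _, ?_⟩
    have hv : v = (0, 0) ∨ v = (1, 0) := by revert v; decide
    rcases hv with rfl | rfl
    · exact Or.inl rfl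
    · right
      rw [SimpleGraph.boxProd_adj, SimpleGraph.pathGraph_adj]
      left
      exact ⟨Or.inl rfl, rfl⟩

/-- Stacking strips of heights two and three. -/
theorem win_stack {m k2 k3 : ℕ} (h3 : Win (grid 3 m) k3 ∅ ∅) (h2 : Win (grid 2 m) k2 ∅ ∅)
    (a c : ℕ) : Win (grid (3 * a + 2 * c) m) (k3 * a + k2 * c) ∅ ∅ := by
  induction a with
  | zero =>
    induction c with
    | zero => simpa using win_empty m
    | succ c ih =>
      have := win_add ih h2
      have e1 : 3 * 0 + 2 * c + 2 = 3 * 0 + 2 * (c + 1) := by ring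
      have e2 : k3 * 0 + k2 * c + k2 = k3 * 0 + k2 * (c + 1) := by ring
      rw [e1, e2] at this
      exact this
  | succ a ih =>
    have := win_add ih h3
    have e1 : 3 * a + 2 * c + 3 = 3 * (a + 1) + 2 * c := by ring
    have e2 : k3 * a + k2 * c + k3 = k3 * (a + 1) + k2 * c := by ring
    rw [e1, e2] at this
    exact this

theorem win_two (m : ℕ) : Win (grid 2 m) m ∅ ∅ := by
  apply win_swap
  induction m with
  | zero => exact win_empty 2
  | succ m ih => exact win_add ih (win_swap win_domino)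

theorem win_grid (a b c e : ℕ) :
    Win (grid (3 * a + 2 * c) (3 * b + 2 * e)) (4 * a * b + 3 * a * e + 3 * b * c + 2 * c * e) ∅ ∅ := by
  have h3 : Win (grid 3 (3 * b + 2 * e)) (4 * b + 3 * e) ∅ ∅ :=
    win_swap (win_stack win_three (win_two 3) b e)
  have h := win_stack h3 (win_two (3 * b + 2 * e)) a c
  have e1 : (4 * b + 3 * e) * a + (3 * b + 2 * e) * c
      = 4 * a * b + 3 * a * e + 3 * b * c + 2 * c * e := by ring
  rw [e1] at h
  exact h

end Pool.Agent.MBG
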