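import Pool.Agent.MBG.Grid
import Pool.Agent.MBG.B36

/-!
# Grids, with the three times six board
-/

set_option autoImplicit false

namespace Pool.Agent.MBG

theorem win_strip (p b e : ℕ) :
    Win (grid (6 * p + 3 * b + 2 * e) 3) (7 * p + 4 * b + 3 * e) ∅ ∅ := by
  induction p with
  | zero =>
    have h := win_stack win_three (win_two 3) b e
    have e1 : 6 * 0 + 3 * b + 2 * e = 3 * b + 2 * e := by ring
    have e2 : 7 * 0 + 4 * b + 3 * e = 4 * b + 3 * e := by ring
    rw [e1, e2]
    exact h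
  | succ p ih =>
    have h := win_add ih (win_swap win_three_six)
    have e1 : 6 * p + 3 * b + 2 * e + 6 = 6 * (p + 1) + 3 * b + 2 * e := by ring
    have e2 : 7 * p + 4 * b + 3 * e + 7 = 7 * (p + 1) + 4 * b + 3 * e := by ring
    rw [e1, e2] at h
    exact h

theorem win_grid6 (a c p b e : ℕ) :
    Win (grid (3 * a + 2 * c) (6 * p + 3 * b + 2 * e))
      ((7 * p + 4 * b + 3 * e) * a + (6 * p + 3 * b + 2 * e) * c) ∅ ∅ :=
  win_stack (win_swap (win_strip p b e)) (win_two _) a c

end Pool.Agent.MBG
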