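import Pool.Agent.MBG.Both

/-!
# The density of the Staller-first number
-/

set_option autoImplicit false

namespace Pool.Agent.MBG

theorem win_of_wins {V : Type} [DecidableEq V] {G : SimpleGraph V} {k : ℕ} {D S : Finset V}
    (h : Wins G k D S) : Win G k (D : Set V) (S : Set V) := by
  induction k generalizing D S with
  | zero =>
    intro v
    obtain ⟨u, hu, h⟩ := h v
    exact ⟨u, by exact_mod_cast hu, h⟩
  | succ k ih =>
    rcases h with h | ⟨⟨v, hvD, hvS⟩, h2⟩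
    · left
      intro v
      obtain ⟨u, hu, h⟩ := h v
      exact ⟨u, by exact_mod_cast hu, h⟩
    · right
      refine ⟨⟨v, by exact_mod_cast hvD, by exact_mod_cast hvS⟩, fun s hsD hsS => ?_⟩
      obtain ⟨d, h5, h3, h4, h6⟩ := h2 s (by exact_mod_cast hsD) (by exact_mod_cast hsS)
      refine ⟨d, by exact_mod_cast h3, by exact_mod_cast h4, h5, ?_⟩
      have := ih h6
      rw [Finset.coe_insert, Finset.coe_insert] at this
      exact this

theorem attained {V : Type} [DecidableEq V] {G : SimpleGraph V} {k : ℕ} (h : Win G k ∅ ∅) :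
    ∃ j : ℕ, gammaS G = j ∧ j ≤ k ∧ Win G j ∅ ∅ := by
  have hne : {x : ℕ∞ | ∃ k : ℕ, x = k ∧ Wins G k ∅ ∅}.Nonempty :=
    ⟨k, k, rfl, wins_of_win (by simpa using h)⟩
  obtain ⟨j, hj, hw⟩ := csInf_mem hne
  refine ⟨j, hj, ?_, ?_⟩
  · have := gammaS_le h
    unfold gammaS at this
    rw [hj] at this
    exact_mod_cast this
  · simpa using win_of_wins hw

theorem win_rect {n m : ℕ} (hn : 2 ≤ n) (hm : 2 ≤ m) : Win (grid n m) (n * m) ∅ ∅ := by
  obtain ⟨a, c, rfl⟩ : ∃ a c, n = 3 * a + 2 * c := ⟨n % 2, (n - 3 * (n % 2)) / 2, by omega⟩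
  obtain ⟨b, e, rfl⟩ : ∃ b e, m = 3 * b + 2 * e := ⟨m % 2, (m - 3 * (m % 2)) / 2, by omega⟩
  refine (win_grid a b c e).mono_k (Nat.le.intro (k := 5 * a * b + 3 * a * e + 3 * b * c + 2 * c * e) ?_)
  ring

theorem win_mul {n m k : ℕ} (h : Win (grid n m) k ∅ ∅) (q : ℕ) :
    Win (grid (q * n) m) (q * k) ∅ ∅ := by
  induction q with
  | zero =>
    rw [Nat.zero_mul, Nat.zero_mul]
    exact win_empty m
  | succ q ih =>
    have := win_add ih h
    rw [Nat.succ_mul, Nat.succ_mul]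
    exact this

theorem split_mod {a n : ℕ} (ha : 2 ≤ a) (hn : a + 2 ≤ n) :
    ∃ q r, n = q * a + r ∧ 2 ≤ r ∧ r ≤ a + 1 ∧ 1 ≤ q := by
  refine ⟨(n - 2) / a, (n - 2) % a + 2, ?_, by omega, ?_, ?_⟩
  · have := Nat.div_add_mod (n - 2) a
    rw [mul_comm] at this
    omega
  · have := Nat.mod_lt (n - 2) (show 0 < a by omega)
    omega
  · exact Nat.div_pos (by omega) (by omega)

theorem win_tiled {a b K n m : ℕ} (ha : 2 ≤ a) (hb : 2 ≤ b) (h : Win (grid a b) K ∅ ∅)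
    (hn : a + 2 ≤ n) (hm : b + 2 ≤ m) :
    ∃ q q' r r' : ℕ, n = q * a + r ∧ m = q' * b + r' ∧ r ≤ a + 1 ∧ r' ≤ b + 1 ∧
      Win (grid n m) (q' * (q * K) + r' * (q * a) + r * m) ∅ ∅ := by
  obtain ⟨q, r, hn', hr2, hr, hq⟩ := split_mod ha hn
  obtain ⟨q', r', hm', hr2', hr', hq'⟩ := split_mod hb hm
  refine ⟨q, q', r, r', hn', hm', hr, hr', ?_⟩
  have h1 : Win (grid (q * a) b) (q * K) ∅ ∅ := win_mul h q
  have h2 : Win (grid (q' * b) (q * a)) (q' * (q * K)) ∅ ∅ := win_mul (win_swap h1) q'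
  have hqa : 2 ≤ q * a := le_trans ha (Nat.le_mul_of_pos_left a (by omega))
  have h3 : Win (grid r' (q * a)) (r' * (q * a)) ∅ ∅ := win_rect hr2' hqa
  have h4 := win_swap (win_add h2 h3)
  rw [← hm'] at h4
  have h5 := win_add h4 (win_rect hr2 (show 2 ≤ m by omega))
  rw [← hn'] at h5
  exact h5

theorem density : ∃ c : ℝ,
    (∀ n m : ℕ, 2 ≤ n → 2 ≤ m → ∃ k : ℕ, gammaS (grid n m) = k ∧ c * (n * m) ≤ k) ∧
    ∀ ε : ℝ, 0 < ε → ∃ N : ℕ, ∀ n m : ℕ, N ≤ n → N ≤ m →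
      ∃ k : ℕ, gammaS (grid n m) = k ∧ (k : ℝ) ≤ (c + ε) * (n * m) := by
  set T : Set ℝ := {x : ℝ | ∃ n m k : ℕ, 2 ≤ n ∧ 2 ≤ m ∧ gammaS (grid n m) = k ∧ x = k / (n * m)}
    with hT
  have hbdd : BddBelow T := by
    refine ⟨0, ?_⟩
    rintro x ⟨n, m, k, _, _, _, rfl⟩
    positivity
  have hne : T.Nonempty := by
    obtain ⟨j, hj, _, _⟩ := attained (win_rect (le_refl 2) (le_refl 2))
    exact ⟨_, 2, 2, j, le_refl 2, le_refl 2, hj, rfl⟩
  refine ⟨sInf T, ?_, ?_⟩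
  · intro n m hn hm
    obtain ⟨j, hj, _, _⟩ := attained (win_rect hn hm)
    refine ⟨j, hj, ?_⟩
    have h1 : sInf T ≤ (j : ℝ) / (n * m) := csInf_le hbdd ⟨n, m, j, hn, hm, hj, rfl⟩
    have hpos : (0 : ℝ) < n * m := by
      have : 0 < n * m := Nat.mul_pos (by omega) (by omega)
      exact_mod_cast this
    rwa [le_div_iff₀ hpos] at h1
  · intro ε hε
    obtain ⟨x, ⟨a, b, K, ha, hb, hK, rfl⟩, hx⟩ :=
      exists_lt_of_csInf_lt hne (show sInf T < sInf T + ε / 2 by linarith)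
    obtain ⟨j, hj, _, hwin⟩ := attained (win_rect ha hb)
    have hjK : j = K := by
      have : (j : ℕ∞) = (K : ℕ∞) := hj.symm.trans hK
      exact_mod_cast this
    rw [hjK] at hwin
    set c := sInf T with hc
    have hab : (0 : ℝ) < a * b := by
      have : 0 < a * b := Nat.mul_pos (by omega) (by omega)
      exact_mod_cast this
    have hc0 : 0 ≤ c + ε / 2 := le_trans (by positivity) hx.le
    have hK2 : (K : ℝ) ≤ (c + ε / 2) * (a * b) := by
      have := hx.le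
      rwa [div_le_iff₀ hab] at this
    refine ⟨max (a + b + 2) ⌈4 * ((a : ℝ) + b + 1) / ε⌉₊, fun n m hn hm => ?_⟩
    have hn1 : a + b + 2 ≤ n := le_trans (le_max_left _ _) hn
    have hm1 : a + b + 2 ≤ m := le_trans (le_max_left _ _) hm
    have hn2 : 4 * ((a : ℝ) + b + 1) / ε ≤ n :=
      le_trans (Nat.le_ceil _) (by exact_mod_cast le_trans (le_max_right _ _) hn)
    have hm2 : 4 * ((a : ℝ) + b + 1) / ε ≤ m :=
      le_trans (Nat.le_ceil _) (by exact_mod_cast le_trans (le_max_right _ _) hm)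
    rw [div_le_iff₀ hε] at hn2 hm2
    obtain ⟨q, q', r, r', e1, e2, hr, hr', hw⟩ :=
      win_tiled (n := n) (m := m) ha hb hwin (by omega) (by omega)
    obtain ⟨k, hk, hk2, _⟩ := attained hw
    refine ⟨k, hk, ?_⟩
    have hk3 : (k : ℝ) ≤ q' * (q * K) + r' * (q * a) + r * m := by exact_mod_cast hk2
    have hqa : (q : ℝ) * a ≤ n := by
      have : q * a ≤ n := by omega
      exact_mod_cast this
    have hqb : (q' : ℝ) * b ≤ m := by
      have : q' * b ≤ m := by omega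
      exact_mod_cast this
    have hrR : (r : ℝ) ≤ a + 1 := by exact_mod_cast hr
    have hrR' : (r' : ℝ) ≤ b + 1 := by exact_mod_cast hr'
    have hn0 : (0 : ℝ) ≤ n := Nat.cast_nonneg _
    have hm0 : (0 : ℝ) ≤ m := Nat.cast_nonneg _
    have ha0 : (0 : ℝ) ≤ a := Nat.cast_nonneg _
    have hb0 : (0 : ℝ) ≤ b := Nat.cast_nonneg _
    have s1 : (q' : ℝ) * (q * K) ≤ (c + ε / 2) * (n * m) := by
      calc (q' : ℝ) * (q * K) ≤ q' * (q * ((c + ε / 2) * (a * b))) := by gcongr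
        _ = (c + ε / 2) * ((q * a) * (q' * b)) := by ring
        _ ≤ (c + ε / 2) * (n * m) := by gcongr
    have s2 : (r' : ℝ) * (q * a) ≤ ε / 4 * (n * m) := by
      calc (r' : ℝ) * (q * a) ≤ (b + 1) * n := by gcongr
        _ ≤ (m * ε / 4) * n := by
          have : (b : ℝ) + 1 ≤ m * ε / 4 := by linarith
          gcongr
        _ = ε / 4 * (n * m) := by ring
    have s3 : (r : ℝ) * m ≤ ε / 4 * (n * m) := by
      calc (r : ℝ) * m ≤ (n * ε / 4) * m := by
            have : (r : ℝ) ≤ n * ε / 4 := by linarith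
            gcongr
        _ = ε / 4 * (n * m) := by ring
    calc (k : ℝ) ≤ q' * (q * K) + r' * (q * a) + r * m := hk3
      _ ≤ (c + ε / 2) * (n * m) + ε / 4 * (n * m) + ε / 4 * (n * m) := by linarith
      _ = (c + ε) * (n * m) := by ring

theorem strip_density (n : ℕ) (hn : 2 ≤ n) : ∃ c : ℝ,
    (∀ m : ℕ, 2 ≤ m → ∃ k : ℕ, gammaS (grid n m) = k ∧ c * m ≤ k) ∧
    ∀ ε : ℝ, 0 < ε → ∃ N : ℕ, ∀ m : ℕ, N ≤ m →
      ∃ k : ℕ, gammaS (grid n m) = k ∧ (k : ℝ) ≤ (c + ε) * m := by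
  set T : Set ℝ := {x : ℝ | ∃ m k : ℕ, 2 ≤ m ∧ gammaS (grid n m) = k ∧ x = k / m} with hT
  have hbdd : BddBelow T := by
    refine ⟨0, ?_⟩
    rintro x ⟨m, k, _, _, rfl⟩
    positivity
  have hne : T.Nonempty := by
    obtain ⟨j, hj, _, _⟩ := attained (win_rect hn (le_refl 2))
    exact ⟨_, 2, j, le_refl 2, hj, rfl⟩
  refine ⟨sInf T, ?_, ?_⟩
  · intro m hm
    obtain ⟨j, hj, _, _⟩ := attained (win_rect hn hm)
    refine ⟨j, hj, ?_⟩
    have h1 : sInf T ≤ (j : ℝ) / m := csInf_le hbdd ⟨m, j, hm, hj, rfl⟩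
    have hpos : (0 : ℝ) < m := by
      have : 0 < m := by omega
      exact_mod_cast this
    rwa [le_div_iff₀ hpos] at h1
  · intro ε hε
    obtain ⟨x, ⟨b, K, hb, hK, rfl⟩, hx⟩ :=
      exists_lt_of_csInf_lt hne (show sInf T < sInf T + ε / 2 by linarith)
    obtain ⟨j, hj, _, hwin⟩ := attained (win_rect hn hb)
    have hjK : j = K := by
      have : (j : ℕ∞) = (K : ℕ∞) := hj.symm.trans hK
      exact_mod_cast this
    rw [hjK] at hwin
    set c := sInf T with hc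
    have hb1 : (0 : ℝ) < b := by
      have : 0 < b := by omega
      exact_mod_cast this
    have hc0 : 0 ≤ c + ε / 2 := le_trans (by positivity) hx.le
    have hK2 : (K : ℝ) ≤ (c + ε / 2) * b := by
      have := hx.le
      rwa [div_le_iff₀ hb1] at this
    refine ⟨max (b + 2) ⌈2 * (((b : ℝ) + 1) * n) / ε⌉₊, fun m hm => ?_⟩
    have hm1 : b + 2 ≤ m := le_trans (le_max_left _ _) hm
    have hm2 : 2 * (((b : ℝ) + 1) * n) / ε ≤ m :=
      le_trans (Nat.le_ceil _) (by exact_mod_cast le_trans (le_max_right _ _) hm)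
    rw [div_le_iff₀ hε] at hm2
    obtain ⟨q', r', hm', hr2', hr', hq'⟩ := split_mod hb hm1
    have h2 : Win (grid (q' * b) n) (q' * K) ∅ ∅ := win_mul (win_swap hwin) q'
    have h3 : Win (grid r' n) (r' * n) ∅ ∅ := win_rect hr2' hn
    have hw := win_swap (win_add h2 h3)
    rw [← hm'] at hw
    obtain ⟨k, hk, hk2, _⟩ := attained hw
    refine ⟨k, hk, ?_⟩
    have hk3 : (k : ℝ) ≤ q' * K + r' * n := by exact_mod_cast hk2
    have hqb : (q' : ℝ) * b ≤ m := by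
      have : q' * b ≤ m := by omega
      exact_mod_cast this
    have hrR' : (r' : ℝ) ≤ b + 1 := by exact_mod_cast hr'
    have hn0 : (0 : ℝ) ≤ n := Nat.cast_nonneg _
    have s1 : (q' : ℝ) * K ≤ (c + ε / 2) * m := by
      calc (q' : ℝ) * K ≤ q' * ((c + ε / 2) * b) := by gcongr
        _ = (c + ε / 2) * (q' * b) := by ring
        _ ≤ (c + ε / 2) * m := by gcongr
    have s2 : (r' : ℝ) * n ≤ ε / 2 * m := by
      calc (r' : ℝ) * n ≤ (b + 1) * n := by gcongr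
        _ ≤ ε / 2 * m := by linarith
    calc (k : ℝ) ≤ q' * K + r' * n := hk3
      _ ≤ (c + ε / 2) * m + ε / 2 * m := by linarith
      _ = (c + ε) * m := by ring

end Pool.Agent.MBG
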