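import Pool.Agent.MBG.Base

/-! From the auxiliary game to the Maker-Breaker domination game (helper94). -/

set_option autoImplicit false

namespace Pool.Agent.MBG

section
variable {V : Type*} [DecidableEq V] (G : SimpleGraph V)

theorem StrAux.full [Fintype V] {k : ℕ} {D S : Finset V} (h : W G Finset.univ k D S)
    (hf : ∀ v, v ∈ D ∨ v ∈ S) : Dm G Finset.univ D := by
  induction k generalizing D S with
  | zero => exact h
  | succ k ih =>
    rcases h with h | h
    · exact h
    · by_cases hs : ∃ s, s ∉ D
      · obtain ⟨s, hs⟩ := hs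
        obtain ⟨d, -, hd, hW⟩ := h s (Finset.mem_univ s) hs
        have hsS : s ∈ S := (hf s).resolve_left hs
        rw [Finset.insert_eq_of_mem hsS] at hd hW
        have hdD : d ∈ D := (hf d).resolve_right hd
        rw [Finset.insert_eq_of_mem hdD] at hW
        exact ih hW hf
      · push Not at hs
        intro v _
        exact ⟨v, hs v, Or.inl rfl⟩

theorem StrAux.dm_wins [Fintype V] {k : ℕ} {D S : Finset V} (h : Dm G Finset.univ D) :
    Wins G k D S := by
  have h' : ∀ v, ∃ u ∈ D, u = v ∨ G.Adj u v := fun v => h v (Finset.mem_univ v)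
  cases k with
  | zero => exact h'
  | succ k => exact Or.inl h'

/-- module Str -/
theorem W.wins [Fintype V] {k : ℕ} {D S : Finset V} (h : W G Finset.univ k D S) :
    Wins G k D S := by
  induction k generalizing D S with
  | zero => exact StrAux.dm_wins G h
  | succ k ih =>
    by_cases hdm : Dm G Finset.univ D
    · exact StrAux.dm_wins G hdm
    have hfree : ∃ s, s ∉ D ∧ s ∉ S := by
      by_contra hcon
      push Not at hcon
      refine hdm (StrAux.full G h fun v => ?_)
      by_cases hv : v ∈ D
      · exact Or.inl hv
      · exact Or.inr (hcon v hv)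
    refine Or.inr ⟨hfree, fun s hsD hsS => ?_⟩
    have h' := h.resolve_left hdm
    obtain ⟨d, -, hd, hW⟩ := h' s (Finset.mem_univ s) hsD
    rw [Finset.mem_insert, not_or] at hd
    by_cases hdD : d ∈ D
    · rw [Finset.insert_eq_of_mem hdD] at hW
      by_cases hex : ∃ d', d' ≠ s ∧ d' ∉ D ∧ d' ∉ S
      · obtain ⟨d', h1, h2, h3⟩ := hex
        exact ⟨d', h1, h2, h3, ih (W.mono G hW (Finset.subset_insert _ _)
          Finset.inter_subset_left)⟩
      · push Not at hex
        refine absurd (StrAux.full G hW fun v => ?_) hdm
        by_cases hv : v ∈ D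
        · exact Or.inl hv
        · refine Or.inr ?_
          by_cases hvs : v = s
          · rw [hvs]; exact Finset.mem_insert_self _ _
          · exact Finset.mem_insert_of_mem (hex v hvs hv)
    · exact ⟨d, hd.1, hdD, hd.2, ih hW⟩

end

end Pool.Agent.MBG
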