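import Pool.Agent.MBG.Tile
import Pool.Agent.MBG.Str

/-! The bound for both games on the grid (helper94). -/

set_option autoImplicit false

namespace Pool.Agent.MBG

namespace MainAux

theorem arith {A B R T : ℕ} (hR : R ≤ 2) (hT : T ≤ 4) :
    10 * (6 * A * B + 3 * A * T + R * (5 * B + 2 * T)) ≤
      4 * (3 * A + 2 * R) * (5 * B + 2 * T) + 8 * (3 * A + 2 * R) + 4 * (5 * B + 2 * T) := by
  have h1 : A * T ≤ A * 4 := Nat.mul_le_mul_left A hT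
  have h2 : B * R ≤ B * 2 := Nat.mul_le_mul_left B hR
  have h3 : T * R ≤ T * 2 := Nat.mul_le_mul_left T hR
  nlinarith [h1, h2, h3]

theorem kpos {A B R T : ℕ} (hn : 0 < 3 * A + 2 * R) (hm : 0 < 5 * B + 2 * T) :
    0 < 6 * A * B + 3 * A * T + R * (5 * B + 2 * T) := by
  rcases Nat.eq_zero_or_pos R with hR | hR
  · have hA : 0 < A := by omega
    rcases Nat.eq_zero_or_pos B with hB | hB
    · have hT : 0 < T := by omega
      have := Nat.mul_pos hA hT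
      nlinarith
    · have := Nat.mul_pos hA hB
      nlinarith
  · have := Nat.mul_pos hR hm
    omega

theorem rep_n {n : ℕ} (hn : 4 ≤ n) : ∃ A R : ℕ, n = 3 * A + 2 * R ∧ R ≤ 2 := by
  have h : n % 3 = 0 ∨ n % 3 = 1 ∨ n % 3 = 2 := by omega
  rcases h with h | h | h
  · exact ⟨n / 3, 0, by omega, by omega⟩
  · exact ⟨n / 3 - 1, 2, by omega, by omega⟩
  · exact ⟨n / 3, 1, by omega, by omega⟩

theorem rep_m {m : ℕ} (hm : 8 ≤ m) : ∃ B T : ℕ, m = 5 * B + 2 * T ∧ T ≤ 4 := by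
  have h : m % 5 = 0 ∨ m % 5 = 1 ∨ m % 5 = 2 ∨ m % 5 = 3 ∨ m % 5 = 4 := by omega
  rcases h with h | h | h | h | h
  · exact ⟨m / 5, 0, by omega, by omega⟩
  · exact ⟨m / 5 - 1, 3, by omega, by omega⟩
  · exact ⟨m / 5, 1, by omega, by omega⟩
  · exact ⟨m / 5 - 1, 4, by omega, by omega⟩
  · exact ⟨m / 5, 2, by omega, by omega⟩

end MainAux

open MainAux in
/-- module Main -/
theorem main (n m : ℕ) (hn : 4 ≤ n) (hm : 8 ≤ m) :
    10 * gammaD (Grid n m) ≤ ((4 * n * m + 8 * n + 4 * m : ℕ) : ℕ∞) ∧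
    10 * gammaS (Grid n m) ≤ ((4 * n * m + 8 * n + 4 * m : ℕ) : ℕ∞) := by
  obtain ⟨A, R, rfl, hR⟩ := rep_n hn
  obtain ⟨B, T, rfl, hT⟩ := rep_m hm
  have hW := tile A B R T
  have hK := arith (A := A) (B := B) hR hT
  have hp := kpos (A := A) (B := B) (R := R) (T := T) (by omega) (by omega)
  generalize 6 * A * B + 3 * A * T + R * (5 * B + 2 * T) = K at hW hK hp
  obtain ⟨k, rfl⟩ : ∃ k, K = k + 1 := ⟨K - 1, by omega⟩
  have key : ∀ x : ℕ∞, x ≤ ((k + 1 : ℕ) : ℕ∞) → 10 * x ≤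
      ((4 * (3 * A + 2 * R) * (5 * B + 2 * T) + 8 * (3 * A + 2 * R) + 4 * (5 * B + 2 * T) : ℕ) :
        ℕ∞) := by
    intro x hx
    calc 10 * x ≤ 10 * ((k + 1 : ℕ) : ℕ∞) := by gcongr
      _ = ((10 * (k + 1) : ℕ) : ℕ∞) := by push_cast; rfl
      _ ≤ _ := by exact_mod_cast hK
  refine ⟨key _ ?_, key _ ?_⟩
  · have hne : (Finset.univ : Finset (Fin (3 * A + 2 * R) × Fin (5 * B + 2 * T))).Nonempty :=
      ⟨(⟨0, by omega⟩, ⟨0, by omega⟩), Finset.mem_univ _⟩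
    obtain ⟨d, -, hd⟩ := W.free _ hW hne
    rw [insert_empty_eq] at hd
    exact sInf_le ⟨k, d, rfl, W.wins _ hd⟩
  · exact sInf_le ⟨k + 1, rfl, W.wins _ hW⟩

end Pool.Agent.MBG
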