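import Pool.Agent.MBG.Defs

/-! # MBG / Map: embedding of a block (helper92) -/

set_option autoImplicit false
set_option linter.unusedSectionVars false

namespace Pool.Agent.MBG

section
variable {V : Type*} [DecidableEq V] (G : SimpleGraph V)

private theorem Dm_map {V' : Type*} (G' : SimpleGraph V') (e : V' ↪ V)
    (he : ∀ u v, G'.Adj u v → G.Adj (e u) (e v)) {B D : Finset V'} (h : Dm G' B D) :
    Dm G (B.map e) (D.map e) := by
  intro v hv
  obtain ⟨v', hv', rfl⟩ := Finset.mem_map.1 hv
  obtain ⟨u, hu, h1⟩ := h v' hv'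
  exact ⟨e u, Finset.mem_map_of_mem e hu, h1.imp (fun h2 => by rw [h2]) (he u v')⟩

/-- module Map: embedding of a block -/
theorem W.map {V' : Type*} [DecidableEq V'] (G' : SimpleGraph V') (e : V' ↪ V)
    (he : ∀ u v, G'.Adj u v → G.Adj (e u) (e v)) {B : Finset V'} {k : ℕ} {D S : Finset V'}
    (h : W G' B k D S) : W G (B.map e) k (D.map e) (S.map e) := by
  induction k generalizing D S with
  | zero => exact Dm_map G G' e he h
  | succ k ih =>
    rcases h with h | h
    · exact Or.inl (Dm_map G G' e he h)
    · refine Or.inr fun s hs hsD => ?_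
      obtain ⟨s', hs', rfl⟩ := Finset.mem_map.1 hs
      obtain ⟨d, hd, hdS, hW⟩ := h s' hs' fun h1 => hsD (Finset.mem_map_of_mem e h1)
      refine ⟨e d, Finset.mem_map_of_mem e hd, ?_, ?_⟩
      · rw [← Finset.map_insert, Finset.mem_map' e]
        exact hdS
      · rw [← Finset.map_insert, ← Finset.map_insert]
        exact ih hW

end

end Pool.Agent.MBG
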