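import Pool.Agent.MBG.Grid

/-!
# Pairing strategies and checked certificates for small boards (helper57)
-/

set_option autoImplicit false

namespace Pool.Agent.MBG

/-- the pairing strategy -/
theorem win_pairs {V : Type} {G : SimpleGraph V} (k : ℕ) (D S : Set V) (P : Finset (V × V))
    (hk : P.card ≤ k)
    (h1 : ∀ p ∈ P, p.1 ∉ D ∧ p.1 ∉ S ∧ p.2 ∉ D ∧ p.2 ∉ S ∧ p.1 ≠ p.2)
    (h2 : ∀ p ∈ P, ∀ q ∈ P, p ≠ q → p.1 ≠ q.1 ∧ p.1 ≠ q.2 ∧ p.2 ≠ q.1 ∧ p.2 ≠ q.2)
    (h3 : ∀ v, (∃ u ∈ D, u = v ∨ G.Adj u v) ∨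
      ∃ p ∈ P, (p.1 = v ∨ G.Adj p.1 v) ∧ (p.2 = v ∨ G.Adj p.2 v)) :
    Win G k D S := by
  classical
  induction k generalizing D S P with
  | zero =>
    have hP : P = ∅ := Finset.card_eq_zero.1 (by omega)
    subst hP
    intro v
    rcases h3 v with h | ⟨p, hp, _⟩
    · exact h
    · exact absurd hp (Finset.notMem_empty p)
  | succ k ih =>
    by_cases hd : Dom G D
    · exact Or.inl hd
    · have hne : P.Nonempty := by
        rw [Finset.nonempty_iff_ne_empty]
        rintro rfl
        apply hd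
        intro v
        rcases h3 v with h | ⟨p, hp, _⟩
        · exact h
        · exact absurd hp (Finset.notMem_empty p)
      obtain ⟨p0, hp0⟩ := hne
      refine Or.inr ⟨⟨p0.1, (h1 p0 hp0).1, (h1 p0 hp0).2.1⟩, fun s hsD hsS => ?_⟩
      have key : ∃ p ∈ P, ∃ d, (d = p.1 ∨ d = p.2) ∧ d ≠ s ∧
          ∀ q ∈ P, q ≠ p → q.1 ≠ s ∧ q.2 ≠ s := by
        by_cases h : ∃ p ∈ P, p.1 = s ∨ p.2 = s
        · obtain ⟨p, hp, hps⟩ := h
          rcases hps with hps | hps
          · refine ⟨p, hp, p.2, Or.inr rfl, ?_, fun q hq hqp => ?_⟩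
            · rw [← hps]; exact (h1 p hp).2.2.2.2.symm
            · have := h2 q hq p hp hqp
              rw [← hps]
              exact ⟨this.1, this.2.2.1⟩
          · refine ⟨p, hp, p.1, Or.inl rfl, ?_, fun q hq hqp => ?_⟩
            · rw [← hps]; exact (h1 p hp).2.2.2.2
            · have := h2 q hq p hp hqp
              rw [← hps]
              exact ⟨this.2.1, this.2.2.2⟩
        · push Not at h
          exact ⟨p0, hp0, p0.1, Or.inl rfl, (h p0 hp0).1, fun q hq _ => h q hq⟩
      obtain ⟨p, hp, d, hd1, hds, hq⟩ := key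
      have hdfree : d ∉ D ∧ d ∉ S := by
        rcases hd1 with rfl | rfl
        · exact ⟨(h1 p hp).1, (h1 p hp).2.1⟩
        · exact ⟨(h1 p hp).2.2.1, (h1 p hp).2.2.2.1⟩
      refine ⟨d, hdfree.1, hdfree.2, hds, ?_⟩
      apply ih (insert d D) (insert s S) (P.erase p)
      · rw [Finset.card_erase_of_mem hp]
        omega
      · intro q hq'
        rw [Finset.mem_erase] at hq'
        obtain ⟨ha, hb, hc, he, hf⟩ := h1 q hq'.2
        obtain ⟨hs1, hs2⟩ := hq q hq'.2 hq'.1
        have h4 := h2 q hq'.2 p hp hq'.1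
        have hd1' : q.1 ≠ d := by
          rcases hd1 with rfl | rfl
          · exact h4.1
          · exact h4.2.1
        have hd2' : q.2 ≠ d := by
          rcases hd1 with rfl | rfl
          · exact h4.2.2.1
          · exact h4.2.2.2
        refine ⟨?_, ?_, ?_, ?_, hf⟩
        · rintro (h | h)
          · exact hd1' h
          · exact ha h
        · rintro (h | h)
          · exact hs1 h
          · exact hb h
        · rintro (h | h)
          · exact hd2' h
          · exact hc h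
        · rintro (h | h)
          · exact hs2 h
          · exact he h
      · intro q hq' r hr' hqr
        exact h2 q (Finset.mem_of_mem_erase hq') r (Finset.mem_of_mem_erase hr') hqr
      · intro v
        rcases h3 v with ⟨u, hu, huv⟩ | ⟨q, hq', hqv⟩
        · exact Or.inl ⟨u, Set.mem_insert_of_mem _ hu, huv⟩
        · by_cases hqp : q = p
          · subst hqp
            left
            refine ⟨d, Set.mem_insert _ _, ?_⟩
            rcases hd1 with rfl | rfl
            · exact hqv.1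
            · exact hqv.2
          · exact Or.inr ⟨q, Finset.mem_erase.2 ⟨hqp, hq'⟩, hqv⟩

/-- tables of positions -/
inductive Tr where
  | nil : Tr
  | node (l : Tr) (k D S M rep : ℕ) (r : Tr) : Tr

def Tr.mem (k D S M : ℕ) : Tr → Bool
  | .nil => false
  | .node l k' D' S' M' _ r =>
    if Nat.beq (D * 1099511627776 + S) (D' * 1099511627776 + S') then
      Nat.beq D D' && Nat.beq S S' && Nat.beq k k' && Nat.beq M M'
    else if Nat.blt (D * 1099511627776 + S) (D' * 1099511627776 + S') then l.mem k D S M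
    else r.mem k D S M

def Tr.all (p : ℕ → ℕ → ℕ → ℕ → ℕ → Bool) : Tr → Bool
  | .nil => true
  | .node l k D S M rep r => p k D S M rep && l.all p && r.all p

theorem Tr.mem_all {p : ℕ → ℕ → ℕ → ℕ → ℕ → Bool} {t : Tr} (h : t.all p = true) {k D S M : ℕ}
    (hm : t.mem k D S M = true) : ∃ rep, p k D S M rep = true := by
  induction t with
  | nil => exact absurd hm (by simp [Tr.mem])
  | node l k' D' S' M' rep r ihl ihr =>
    unfold Tr.all at h
    rw [Bool.and_eq_true, Bool.and_eq_true] at h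
    unfold Tr.mem at hm
    split_ifs at hm with h1 h2
    · simp only [Bool.and_eq_true, Nat.beq_eq] at hm
      obtain ⟨⟨⟨rfl, rfl⟩, rfl⟩, rfl⟩ := hm
      exact ⟨rep, h.1.1⟩
    · exact ihl h.1.2 hm
    · exact ihr h.2 hm

section
variable (n FULL BIG : ℕ)

/-- closed neighbourhood of the cell `v` as a bit mask -/
def nm (v : ℕ) : ℕ := (BIG >>> (40 * v)) &&& 1099511627775

/-- check of a pairing -/
def pl : ℕ → ℕ → ℕ → ℕ → Bool
  | 0, _, _, M => Nat.beq M FULL
  | k + 1, c, U, M => Nat.beq M FULL ||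
    (Nat.blt (c % 32) n && Nat.blt (c / 32 % 32) n && !(Nat.testBit U (c % 32)) &&
      !(Nat.testBit U (c / 32 % 32)) && !(Nat.beq (c % 32) (c / 32 % 32)) &&
      pl k (c / 1024) (U ||| 1 <<< (c % 32) ||| 1 <<< (c / 32 % 32))
        (M ||| (nm BIG (c % 32) &&& nm BIG (c / 32 % 32))))

/-- check of one reply -/
def rchk (T : Tr) (k D S M s e : ℕ) : Bool :=
  Nat.blt (e % 32) n && !(Nat.testBit D (e % 32)) && !(Nat.testBit S (e % 32)) &&
    !(Nat.beq (e % 32) s) &&
    (if Nat.beq (e / 32) 0 then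
      T.mem k (D ||| 1 <<< (e % 32)) (S ||| 1 <<< s) (M ||| nm BIG (e % 32))
     else pl n FULL BIG k (e / 32) ((D ||| 1 <<< (e % 32)) ||| (S ||| 1 <<< s))
      (M ||| nm BIG (e % 32)))

/-- check of one position -/
def chk (T : Tr) (cells : List ℕ) : ℕ → ℕ → ℕ → ℕ → ℕ → Bool
  | 0, _, _, _, _ => false
  | k + 1, D, S, M, rep =>
    cells.any (fun v => !(Nat.testBit D v) && !(Nat.testBit S v)) &&
    cells.all (fun s => Nat.testBit D s || Nat.testBit S s ||
      rchk n FULL BIG T k D S M s ((rep >>> (80 * s)) &&& 1208925819614629174706175))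

end

section
variable {R C : ℕ}

/-- the number of a cell -/
def cnum (v : Fin R × Fin C) : ℕ := (finProdFinEquiv v).val

theorem cnum_inj {u v : Fin R × Fin C} (h : cnum u = cnum v) : u = v :=
  finProdFinEquiv.injective (Fin.ext h)

theorem cnum_lt (v : Fin R × Fin C) : cnum v < R * C := (finProdFinEquiv v).isLt

theorem cnum_ex {d : ℕ} (h : d < R * C) : ∃ v : Fin R × Fin C, cnum v = d :=
  ⟨finProdFinEquiv.symm ⟨d, h⟩, by unfold cnum; rw [Equiv.apply_symm_apply]⟩

/-- the set of a mask -/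
def ms (D : ℕ) : Set (Fin R × Fin C) := {v | Nat.testBit D (cnum v) = true}

theorem mem_ms {D : ℕ} {v : Fin R × Fin C} : v ∈ (ms D : Set (Fin R × Fin C)) ↔
    Nat.testBit D (cnum v) = true := Iff.rfl

theorem tb (D s x : ℕ) : Nat.testBit (D ||| 1 <<< s) x = (Nat.testBit D x || decide (s = x)) := by
  rw [Nat.testBit_or, Nat.one_shiftLeft, Nat.testBit_two_pow]

theorem ms_ins (D : ℕ) (v : Fin R × Fin C) :
    (ms (D ||| 1 <<< cnum v) : Set (Fin R × Fin C)) = insert v (ms D) := by
  ext x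
  rw [mem_ms, tb, Set.mem_insert_iff, mem_ms, Bool.or_eq_true, decide_eq_true_eq]
  constructor
  · rintro (h | h)
    · exact Or.inr h
    · exact Or.inl (cnum_inj h).symm
  · rintro (h | h)
    · exact Or.inr (by rw [h])
    · exact Or.inl h

variable {n FULL BIG : ℕ} (hn : n = R * C) (hF : FULL = 2 ^ n - 1)
  (hnm : ∀ u v : Fin R × Fin C, Nat.testBit (nm BIG (cnum u)) (cnum v) = true →
    u = v ∨ (grid R C).Adj u v)

include hn hF hnm

theorem full_bit {M : ℕ} (h : Nat.beq M FULL = true) (v : Fin R × Fin C) :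
    Nat.testBit M (cnum v) = true := by
  rw [Nat.beq_eq] at h
  rw [h, hF, Nat.testBit_two_pow_sub_one, hn]
  exact decide_eq_true (cnum_lt v)

theorem pl_sound (k : ℕ) : ∀ c U M : ℕ, pl n FULL BIG k c U M = true →
    ∃ P : Finset ((Fin R × Fin C) × (Fin R × Fin C)), P.card ≤ k ∧
      (∀ p ∈ P, Nat.testBit U (cnum p.1) = false ∧ Nat.testBit U (cnum p.2) = false ∧
        p.1 ≠ p.2) ∧
      (∀ p ∈ P, ∀ q ∈ P, p ≠ q → p.1 ≠ q.1 ∧ p.1 ≠ q.2 ∧ p.2 ≠ q.1 ∧ p.2 ≠ q.2) ∧
      (∀ v, Nat.testBit M (cnum v) = true ∨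
        ∃ p ∈ P, (p.1 = v ∨ (grid R C).Adj p.1 v) ∧ (p.2 = v ∨ (grid R C).Adj p.2 v)) := by
  classical
  induction k with
  | zero =>
    intro c U M h
    exact ⟨∅, by simp, by simp, by simp, fun v => Or.inl (full_bit hn hF hnm h v)⟩
  | succ k ih =>
    intro c U M h
    unfold pl at h
    rw [Bool.or_eq_true] at h
    rcases h with h | h
    · exact ⟨∅, by simp, by simp, by simp, fun v => Or.inl (full_bit hn hF hnm h v)⟩
    · simp only [Bool.and_eq_true, Nat.blt_eq, Bool.not_eq_true'] at h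
      obtain ⟨⟨⟨⟨⟨ha, hb⟩, hUa⟩, hUb⟩, hab⟩, hr⟩ := h
      rw [hn] at ha hb
      obtain ⟨a, hae⟩ := cnum_ex ha
      obtain ⟨b, hbe⟩ := cnum_ex hb
      rw [← hae] at hUa hab hr
      rw [← hbe] at hUb hab hr
      obtain ⟨P, hP0, hP1, hP2, hP3⟩ := ih _ _ _ hr
      have hne : a ≠ b := by
        rintro rfl
        simp at hab
      have hP1' : ∀ p ∈ P, (Nat.testBit U (cnum p.1) = false ∧ a ≠ p.1 ∧ b ≠ p.1) ∧
          (Nat.testBit U (cnum p.2) = false ∧ a ≠ p.2 ∧ b ≠ p.2) ∧ p.1 ≠ p.2 := by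
        intro p hp
        obtain ⟨h1, h2, h3⟩ := hP1 p hp
        rw [tb, tb, Bool.or_eq_false_iff, Bool.or_eq_false_iff, decide_eq_false_iff_not,
          decide_eq_false_iff_not] at h1 h2
        exact ⟨⟨h1.1.1, fun h => h1.1.2 (by rw [h]), fun h => h1.2 (by rw [h])⟩,
          ⟨h2.1.1, fun h => h2.1.2 (by rw [h]), fun h => h2.2 (by rw [h])⟩, h3⟩
      refine ⟨insert (a, b) P, ?_, ?_, ?_, ?_⟩
      · exact (Finset.card_insert_le _ _).trans (by omega)
      · intro p hp
        rw [Finset.mem_insert] at hp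
        rcases hp with rfl | hp
        · exact ⟨hUa, hUb, hne⟩
        · obtain ⟨h1, h2, h3⟩ := hP1' p hp
          exact ⟨h1.1, h2.1, h3⟩
      · intro p hp q hq hpq
        rw [Finset.mem_insert] at hp hq
        rcases hp with rfl | hp <;> rcases hq with rfl | hq
        · exact absurd rfl hpq
        · obtain ⟨h1, h2, h3⟩ := hP1' q hq
          exact ⟨h1.2.1, h2.2.1, h1.2.2, h2.2.2⟩
        · obtain ⟨h1, h2, h3⟩ := hP1' p hp
          exact ⟨h1.2.1.symm, h1.2.2.symm, h2.2.1.symm, h2.2.2.symm⟩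
        · exact hP2 p hp q hq hpq
      · intro v
        rcases hP3 v with h | ⟨p, hp, h⟩
        · rw [Nat.testBit_or, Nat.testBit_and, Bool.or_eq_true, Bool.and_eq_true] at h
          rcases h with h | ⟨h1, h2⟩
          · exact Or.inl h
          · exact Or.inr ⟨(a, b), Finset.mem_insert_self _ _, hnm _ _ h1, hnm _ _ h2⟩
        · exact Or.inr ⟨p, Finset.mem_insert_of_mem hp, h⟩

theorem win_of_mem {T : Tr} {cells : List ℕ} (hc : ∀ v : Fin R × Fin C, cnum v ∈ cells)
    (hc' : ∀ d ∈ cells, d < R * C)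
    (hT : T.all (chk n FULL BIG T cells) = true) (k : ℕ) : ∀ D S M : ℕ,
    T.mem k D S M = true →
    (∀ v : Fin R × Fin C, Nat.testBit M (cnum v) = true →
      ∃ u ∈ (ms D : Set (Fin R × Fin C)), u = v ∨ (grid R C).Adj u v) →
    Win (grid R C) k (ms D) (ms S) := by
  induction k with
  | zero =>
    intro D S M hm _
    obtain ⟨rep, h⟩ := Tr.mem_all hT hm
    exact absurd h (by simp [chk])
  | succ k ih =>
    intro D S M hm hM
    obtain ⟨rep, h⟩ := Tr.mem_all hT hm
    unfold chk at h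
    rw [Bool.and_eq_true, List.any_eq_true, List.all_eq_true] at h
    obtain ⟨⟨v, hv, hvf⟩, hall⟩ := h
    obtain ⟨w, rfl⟩ := cnum_ex (hc' v hv)
    rw [Bool.and_eq_true, Bool.not_eq_true', Bool.not_eq_true'] at hvf
    refine Or.inr ⟨⟨w, ?_, ?_⟩, fun s hsD hsS => ?_⟩
    · rw [mem_ms, hvf.1]; simp
    · rw [mem_ms, hvf.2]; simp
    · have h1 := hall (cnum s) (hc s)
      rw [mem_ms] at hsD hsS
      rw [Bool.or_eq_true, Bool.or_eq_true] at h1
      rcases h1 with (h1 | h1) | h1
      · exact absurd h1 hsD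
      · exact absurd h1 hsS
      · unfold rchk at h1
        simp only [Bool.and_eq_true, Nat.blt_eq, Bool.not_eq_true'] at h1
        generalize hee : ((rep >>> (80 * cnum s)) &&& 1208925819614629174706175) = e at h1
        obtain ⟨⟨⟨⟨h2, h3⟩, h4⟩, h5⟩, h6⟩ := h1
        rw [hn] at h2
        obtain ⟨d, hd⟩ := cnum_ex h2
        rw [← hd] at h3 h4 h5 h6
        have hds : d ≠ s := by
          rintro rfl
          simp at h5
        have hM' : ∀ v : Fin R × Fin C, Nat.testBit (M ||| nm BIG (cnum d)) (cnum v) = true →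
            ∃ u ∈ (ms (D ||| 1 <<< cnum d) : Set (Fin R × Fin C)),
              u = v ∨ (grid R C).Adj u v := by
          intro v hv
          rw [Nat.testBit_or, Bool.or_eq_true] at hv
          rw [ms_ins]
          rcases hv with hv | hv
          · obtain ⟨u, hu, huv⟩ := hM v hv
            exact ⟨u, Set.mem_insert_of_mem _ hu, huv⟩
          · exact ⟨d, Set.mem_insert _ _, hnm _ _ hv⟩
        refine ⟨d, by rw [mem_ms, h3]; simp, by rw [mem_ms, h4]; simp, hds, ?_⟩
        rw [← ms_ins, ← ms_ins]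
        split_ifs at h6 with h7
        · exact ih _ _ _ h6 hM'
        · obtain ⟨P, hP0, hP1, hP2, hP3⟩ := pl_sound hn hF hnm k _ _ _ h6
          apply win_pairs k _ _ P hP0
          · intro p hp
            obtain ⟨ha, hb, hab⟩ := hP1 p hp
            rw [Nat.testBit_or, Bool.or_eq_false_iff] at ha hb
            refine ⟨?_, ?_, ?_, ?_, hab⟩
            · rw [mem_ms, ha.1]; simp
            · rw [mem_ms, ha.2]; simp
            · rw [mem_ms, hb.1]; simp
            · rw [mem_ms, hb.2]; simp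
          · exact hP2
          · intro v
            rcases hP3 v with h | h
            · exact Or.inl (hM' v h)
            · exact Or.inr h

theorem win_of_tr {T : Tr} {cells : List ℕ} (hc : ∀ v : Fin R × Fin C, cnum v ∈ cells)
    (hc' : ∀ d ∈ cells, d < R * C)
    (hT : T.all (chk n FULL BIG T cells) = true) (k : ℕ) (h0 : T.mem k 0 0 0 = true) :
    Win (grid R C) k ∅ ∅ := by
  have h := win_of_mem hn hF hnm hc hc' hT k 0 0 0 h0 (fun v hv => by simp at hv)
  have e : (ms 0 : Set (Fin R × Fin C)) = ∅ := by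
    ext v
    simp [mem_ms]
  rwa [e] at h

end

end Pool.Agent.MBG
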