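import Pool.Agent.MBG.Comp
import Pool.Agent.MBG.Map
import Pool.Agent.MBG.Cert

/-! Tiling of the grid by `3 × 5` blocks and dominoes (project MBG, MP_204f32_co). -/

set_option autoImplicit false

namespace Pool.Agent.MBG

open Finset

/-- the rectangle `[a, b) × [c, d)` -/
def rect (n m a b c d : ℕ) : Finset (Fin n × Fin m) :=
  univ.filter fun p => (a ≤ p.1.val ∧ p.1.val < b) ∧ (c ≤ p.2.val ∧ p.2.val < d)

theorem mem_rect {n m a b c d : ℕ} {p : Fin n × Fin m} :
    p ∈ rect n m a b c d ↔ (a ≤ p.1.val ∧ p.1.val < b) ∧ (c ≤ p.2.val ∧ p.2.val < d) := by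
  simp [rect]

/-- `W` for the rectangle -/
def Wr (n m a b c d k : ℕ) : Prop := W (Grid n m) (rect n m a b c d) k ∅ ∅

theorem Wr.h {n m a b c d e k l : ℕ} (h1 : Wr n m a b c d k) (h2 : Wr n m a b d e l)
    (hcd : c ≤ d) (hde : d ≤ e) : Wr n m a b c e (k + l) := by
  have hu : rect n m a b c e = rect n m a b c d ∪ rect n m a b d e := by
    ext p
    rw [mem_union, mem_rect, mem_rect, mem_rect]
    omega
  have hd : Disjoint (rect n m a b c d) (rect n m a b d e) := by
    rw [disjoint_left]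
    intro p h1 h2
    rw [mem_rect] at h1 h2
    omega
  unfold Wr
  rw [hu]
  exact W.comp _ h1 h2 hd

theorem Wr.v {n m a b b' c d k l : ℕ} (h1 : Wr n m a b c d k) (h2 : Wr n m b b' c d l)
    (hab : a ≤ b) (hbb : b ≤ b') : Wr n m a b' c d (k + l) := by
  have hu : rect n m a b' c d = rect n m a b c d ∪ rect n m b b' c d := by
    ext p
    rw [mem_union, mem_rect, mem_rect, mem_rect]
    omega
  have hd : Disjoint (rect n m a b c d) (rect n m b b' c d) := by
    rw [disjoint_left]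
    intro p h1 h2
    rw [mem_rect] at h1 h2
    omega
  unfold Wr
  rw [hu]
  exact W.comp _ h1 h2 hd

theorem Wr.empty_h (n m a b c : ℕ) : Wr n m a b c c 0 := by
  show Dm _ _ _
  intro p hp
  rw [mem_rect] at hp
  omega

theorem Wr.empty_v (n m a c d : ℕ) : Wr n m a a c d 0 := by
  show Dm _ _ _
  intro p hp
  rw [mem_rect] at hp
  omega

theorem iterH {n m a b s k : ℕ} (h : ∀ c, c + s ≤ m → Wr n m a b c (c + s) k) (c : ℕ) :
    ∀ t : ℕ, c + s * t ≤ m → Wr n m a b c (c + s * t) (k * t)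
  | 0, _ => by
    simpa using Wr.empty_h n m a b c
  | t + 1, ht => by
    have e : c + s * (t + 1) = (c + s * t) + s := by ring
    have e2 : k * (t + 1) = k * t + k := by ring
    rw [e] at ht ⊢
    rw [e2]
    exact Wr.h (iterH h c t (by omega)) (h _ ht) (by omega) (by omega)

theorem iterV {n m c d s k : ℕ} (h : ∀ a, a + s ≤ n → Wr n m a (a + s) c d k) (a : ℕ) :
    ∀ t : ℕ, a + s * t ≤ n → Wr n m a (a + s * t) c d (k * t)
  | 0, _ => by
    simpa using Wr.empty_v n m a c d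
  | t + 1, ht => by
    have e : a + s * (t + 1) = (a + s * t) + s := by ring
    have e2 : k * (t + 1) = k * t + k := by ring
    rw [e] at ht ⊢
    rw [e2]
    exact Wr.v (iterV h a t (by omega)) (h _ ht) (by omega) (by omega)

/-- the embedding of the block -/
def emb (n m a c : ℕ) (ha : a + 3 ≤ n) (hc : c + 5 ≤ m) : Fin 3 × Fin 5 ↪ Fin n × Fin m where
  toFun p := (⟨a + p.1.val, by omega⟩, ⟨c + p.2.val, by omega⟩)
  inj' := by
    rintro ⟨i, j⟩ ⟨i', j'⟩ h
    simp only [Prod.mk.injEq, Fin.mk.injEq] at h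
    obtain ⟨h1, h2⟩ := h
    ext
    · simp only; omega
    · simp only; omega

theorem emb_fst {n m a c : ℕ} (ha : a + 3 ≤ n) (hc : c + 5 ≤ m) (p : Fin 3 × Fin 5) :
    ((emb n m a c ha hc p).1 : ℕ) = a + p.1.val := rfl

theorem emb_snd {n m a c : ℕ} (ha : a + 3 ≤ n) (hc : c + 5 ≤ m) (p : Fin 3 × Fin 5) :
    ((emb n m a c ha hc p).2 : ℕ) = c + p.2.val := rfl

theorem blk {n m : ℕ} (a c : ℕ) (ha : a + 3 ≤ n) (hc : c + 5 ≤ m) :
    Wr n m a (a + 3) c (c + 5) 6 := by
  have h := W.map (Grid n m) (Grid 3 5) (emb n m a c ha hc) (by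
    intro u v h
    rw [SimpleGraph.boxProd_adj, SimpleGraph.pathGraph_adj, SimpleGraph.pathGraph_adj] at h
    rw [SimpleGraph.boxProd_adj, SimpleGraph.pathGraph_adj, SimpleGraph.pathGraph_adj,
      Fin.ext_iff, Fin.ext_iff, emb_fst, emb_fst, emb_snd, emb_snd]
    rw [Fin.ext_iff, Fin.ext_iff] at h
    omega) block35
  have hr : (univ : Finset (Fin 3 × Fin 5)).map (emb n m a c ha hc) =
      rect n m a (a + 3) c (c + 5) := by
    ext q
    rw [mem_map, mem_rect]
    constructor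
    · rintro ⟨p, -, h⟩
      have h1 := congrArg (fun z : Fin n × Fin m => (z.1 : ℕ)) h
      have h2 := congrArg (fun z : Fin n × Fin m => (z.2 : ℕ)) h
      simp only [emb_fst, emb_snd] at h1 h2
      have h3 := p.1.isLt
      have h4 := p.2.isLt
      omega
    · rintro ⟨h1, h2⟩
      refine ⟨(⟨q.1.val - a, by omega⟩, ⟨q.2.val - c, by omega⟩), mem_univ _, ?_⟩
      refine Prod.ext (Fin.ext ?_) (Fin.ext ?_)
      · rw [emb_fst]; simp only; omega
      · rw [emb_snd]; simp only; omega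
  rw [hr] at h
  exact h

theorem domino {V : Type*} [DecidableEq V] (G : SimpleGraph V) {x y : V} (h : G.Adj x y) :
    W G {x, y} 1 ∅ ∅ := by
  right
  intro s hs _
  have hne := h.ne
  rcases mem_insert.1 hs with hs | hs
  · refine ⟨y, mem_insert_of_mem (mem_singleton_self y), ?_, ?_⟩
    · rw [hs]
      simpa using hne.symm
    · intro v hv
      refine ⟨y, mem_insert_self _ _, ?_⟩
      rcases mem_insert.1 hv with hv | hv
      · right
        rw [hv]
        exact h.symm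
      · left
        exact (mem_singleton.1 hv).symm
  · rw [mem_singleton] at hs
    refine ⟨x, mem_insert_self _ _, ?_, ?_⟩
    · rw [hs]
      simpa using hne
    · intro v hv
      refine ⟨x, mem_insert_self _ _, ?_⟩
      rcases mem_insert.1 hv with hv | hv
      · left
        exact hv.symm
      · right
        rw [mem_singleton.1 hv]
        exact h

theorem dom_h {n m : ℕ} (a c : ℕ) (ha : a + 1 ≤ n) (hc : c + 2 ≤ m) :
    Wr n m a (a + 1) c (c + 2) 1 := by
  have hadj : (Grid n m).Adj (⟨a, by omega⟩, ⟨c, by omega⟩) (⟨a, by omega⟩, ⟨c + 1, by omega⟩) := by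
    rw [SimpleGraph.boxProd_adj, SimpleGraph.pathGraph_adj, SimpleGraph.pathGraph_adj]
    right
    exact ⟨Or.inl rfl, rfl⟩
  have h := domino (Grid n m) hadj
  have hr : rect n m a (a + 1) c (c + 2) =
      {((⟨a, by omega⟩, ⟨c, by omega⟩) : Fin n × Fin m), (⟨a, by omega⟩, ⟨c + 1, by omega⟩)} := by
    ext ⟨i, j⟩
    rw [mem_rect, mem_insert, mem_singleton]
    simp only [Prod.mk.injEq, Fin.ext_iff]
    omega
  unfold Wr
  rw [hr]
  exact h

theorem dom_v {n m : ℕ} (a c : ℕ) (ha : a + 2 ≤ n) (hc : c + 1 ≤ m) :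
    Wr n m a (a + 2) c (c + 1) 1 := by
  have hadj : (Grid n m).Adj (⟨a, by omega⟩, ⟨c, by omega⟩) (⟨a + 1, by omega⟩, ⟨c, by omega⟩) := by
    rw [SimpleGraph.boxProd_adj, SimpleGraph.pathGraph_adj, SimpleGraph.pathGraph_adj]
    left
    exact ⟨Or.inl rfl, rfl⟩
  have h := domino (Grid n m) hadj
  have hr : rect n m a (a + 2) c (c + 1) =
      {((⟨a, by omega⟩, ⟨c, by omega⟩) : Fin n × Fin m), (⟨a + 1, by omega⟩, ⟨c, by omega⟩)} := by
    ext ⟨i, j⟩
    rw [mem_rect, mem_insert, mem_singleton]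
    simp only [Prod.mk.injEq, Fin.ext_iff]
    omega
  unfold Wr
  rw [hr]
  exact h

theorem tile (A B R T : ℕ) : W (Grid (3 * A + 2 * R) (5 * B + 2 * T)) Finset.univ
    (6 * A * B + 3 * A * T + R * (5 * B + 2 * T)) ∅ ∅ := by
  obtain ⟨n, hn⟩ : ∃ n, n = 3 * A + 2 * R := ⟨_, rfl⟩
  obtain ⟨m, hm⟩ : ∃ m, m = 5 * B + 2 * T := ⟨_, rfl⟩
  rw [← hn, ← hm]
  have h1 : Wr n m 0 (0 + 3 * A) 0 (0 + 5 * B) (6 * B * A) :=
    iterV (fun a ha => iterH (fun c hc => blk a c ha hc) 0 B (by omega)) 0 A (by omega)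
  have h2 : Wr n m 0 (0 + 1 * (3 * A)) (5 * B) (5 * B + 2 * T) (1 * T * (3 * A)) :=
    iterV (fun a ha => iterH (fun c hc => dom_h a c ha hc) (5 * B) T (by omega)) 0 (3 * A) (by omega)
  have h3 : Wr n m (3 * A) (3 * A + 2 * R) 0 (0 + 1 * m) (1 * m * R) :=
    iterV (fun a ha => iterH (fun c hc => dom_v a c ha hc) 0 m (by omega)) (3 * A) R (by omega)
  simp only [zero_add, one_mul] at h1 h2 h3
  have h4 := (h1.h h2 (by omega) (by omega))
  rw [← hm] at h4
  have h5 := h4.v h3 (by omega) (by omega)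
  rw [← hn] at h5
  have hr : rect n m 0 n 0 m = univ := by
    ext p
    rw [mem_rect]
    simp
  unfold Wr at h5
  rw [hr] at h5
  have e : 6 * B * A + T * (3 * A) + m * R = 6 * A * B + 3 * A * T + R * m := by ring
  rw [e] at h5
  exact h5

end Pool.Agent.MBG
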